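import Mathlib

/-!
# The rank distance of idempotent operators from matrices over an algebra
-/

set_option autoImplicit false
set_option linter.unusedSectionVars false
set_option linter.unusedVariables false

open LinearMap Polynomial

namespace Pool.Agent.H858.CG

variable {K : Type*} [Field K]

section Rank

variable {U V W : Type*} [AddCommGroup U] [Module K U] [AddCommGroup V] [Module K V]
  [AddCommGroup W] [Module K W]

/-- The rank of a linear map. -/
noncomputable def rk (f : V →ₗ[K] W) : ℕ := Module.finrank K (LinearMap.range f)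

theorem rk_comp_le_left [Module.Finite K V] (g : W →ₗ[K] U) (f : V →ₗ[K] W) :
    rk (g ∘ₗ f) ≤ rk f := by
  rw [rk, rk, LinearMap.range_comp]
  exact Submodule.finrank_map_le _ _

theorem rk_comp_le_right [Module.Finite K W] (g : W →ₗ[K] U) (f : V →ₗ[K] W) :
    rk (g ∘ₗ f) ≤ rk g := by
  rw [rk, rk, LinearMap.range_comp]
  have : (LinearMap.range f).map g ≤ LinearMap.range g := LinearMap.map_le_range
  exact Submodule.finrank_mono this

theorem rk_zero : rk (0 : V →ₗ[K] W) = 0 := by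
  rw [rk, LinearMap.range_zero, finrank_bot]

theorem rk_add_le [Module.Finite K V] [Module.Finite K W] (f g : V →ₗ[K] W) :
    rk (f + g) ≤ rk f + rk g := by
  rw [rk, rk, rk]
  have h1 : LinearMap.range (f + g) ≤ LinearMap.range f ⊔ LinearMap.range g := by
    rintro _ ⟨x, rfl⟩
    exact Submodule.add_mem_sup ⟨x, rfl⟩ ⟨x, rfl⟩
  exact (Submodule.finrank_mono h1).trans (Submodule.finrank_add_le_finrank_add_finrank _ _)

theorem rk_sum_le [Module.Finite K V] [Module.Finite K W] {α : Type*} (s : Finset α)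
    (f : α → (V →ₗ[K] W)) : rk (∑ t ∈ s, f t) ≤ ∑ t ∈ s, rk (f t) := by
  classical
  induction s using Finset.induction_on with
  | empty => rw [Finset.sum_empty, Finset.sum_empty, rk_zero]
  | insert a s ha ih =>
    rw [Finset.sum_insert ha, Finset.sum_insert ha]
    exact (rk_add_le _ _).trans (Nat.add_le_add_left ih _)

theorem rk_prodMap [Module.Finite K V] [Module.Finite K U] (f : V →ₗ[K] V) (g : U →ₗ[K] U) :
    rk f + rk g ≤ rk (f.prodMap g) := by
  rw [rk, rk, rk, ← Module.finrank_prod]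
  let φ : (LinearMap.range f × LinearMap.range g) →ₗ[K] LinearMap.range (f.prodMap g) :=
    LinearMap.codRestrict _ ((LinearMap.range f).subtype.prodMap (LinearMap.range g).subtype) (by
      rintro ⟨⟨_, x, rfl⟩, ⟨_, y, rfl⟩⟩
      exact ⟨(x, y), rfl⟩)
  refine LinearMap.finrank_le_finrank_of_injective (f := φ) ?_
  rintro ⟨a, b⟩ ⟨a', b'⟩ h
  have h1 := congrArg Subtype.val h
  exact Prod.ext (Subtype.ext (congrArg Prod.fst h1)) (Subtype.ext (congrArg Prod.snd h1))

/-- The operator with the blocks `τ`, `b`, `c`, `D`. -/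
def blk (τ : V →ₗ[K] V) (b : U →ₗ[K] V) (c : V →ₗ[K] U) (D : U →ₗ[K] U) :
    (V × U) →ₗ[K] (V × U) :=
  (τ ∘ₗ LinearMap.fst K V U + b ∘ₗ LinearMap.snd K V U).prod
    (c ∘ₗ LinearMap.fst K V U + D ∘ₗ LinearMap.snd K V U)

theorem blk_apply (τ : V →ₗ[K] V) (b : U →ₗ[K] V) (c : V →ₗ[K] U) (D : U →ₗ[K] U) (x : V)
    (y : U) : blk τ b c D (x, y) = (τ x + b y, c x + D y) := rfl

/-- **Elimination with a partially invertible pivot.** -/
theorem schur [Module.Finite K V] [Module.Finite K U] {τ g ζ : Module.End K V} {b : U →ₗ[K] V}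
    {c : V →ₗ[K] U} {D : U →ₗ[K] U} (hg : g * g = g) (h1 : τ * ζ * g = g) (h2 : g * τ * ζ = g)  :
    rk g + rk (D - c ∘ₗ ζ ∘ₗ b) ≤ rk (blk τ b c D) := by
  have key : (blk g (0 : U →ₗ[K] V) (-(c ∘ₗ ζ ∘ₗ g)) (LinearMap.id : U →ₗ[K] U)) ∘ₗ (blk τ b c D) ∘ₗ
      (blk (ζ * g) (-(ζ ∘ₗ b)) (0 : V →ₗ[K] U) (LinearMap.id : U →ₗ[K] U)) =
        g.prodMap (D - c ∘ₗ ζ ∘ₗ b) := by
    apply LinearMap.ext
    rintro ⟨x, y⟩
    have e1 : τ (ζ (g x)) = g x := LinearMap.congr_fun h1 x
    have e2 : ∀ z, g (τ (ζ z)) = g z := fun z => LinearMap.congr_fun h2 z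
    have e3 : ∀ z, g (g z) = g z := fun z => LinearMap.congr_fun hg z
    have e4 : g (τ (ζ (g x) + -ζ (b y)) + b y) = g x := by
      rw [map_add, map_add, map_add, map_neg, map_neg, e1, e2, e3]
      abel
    simp only [LinearMap.comp_apply, blk_apply, LinearMap.prodMap_apply, Module.End.mul_apply,
      LinearMap.neg_apply, LinearMap.zero_apply, LinearMap.id_apply, zero_add, add_zero,
      Prod.mk.injEq]
    refine ⟨e4, ?_⟩
    rw [e4]
    simp only [map_add, map_neg, LinearMap.sub_apply, LinearMap.comp_apply]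
    abel
  calc rk g + rk (D - c ∘ₗ ζ ∘ₗ b) ≤ rk (g.prodMap (D - c ∘ₗ ζ ∘ₗ b)) := rk_prodMap _ _
    _ = rk ((blk g (0 : U →ₗ[K] V) (-(c ∘ₗ ζ ∘ₗ g)) (LinearMap.id : U →ₗ[K] U)) ∘ₗ
      ((blk τ b c D) ∘ₗ (blk (ζ * g) (-(ζ ∘ₗ b)) (0 : V →ₗ[K] U)
        (LinearMap.id : U →ₗ[K] U)))) := by rw [key]
    _ ≤ rk ((blk τ b c D) ∘ₗ (blk (ζ * g) (-(ζ ∘ₗ b)) (0 : V →ₗ[K] U)
        (LinearMap.id : U →ₗ[K] U))) := rk_comp_le_left _ _
    _ ≤ _ := rk_comp_le_right _ _

end Rank

section Split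

variable {V : Type*} [AddCommGroup V] [Module K V]

/-- The Fitting decomposition, with polynomials. -/
theorem exists_split [Module.Finite K V] (a : Module.End K V) : ∃ E Z : K[X],
    aeval a E * aeval a E = aeval a E ∧ a * aeval a Z * aeval a E = aeval a E ∧
      (a - 1) * aeval a Z * (1 - aeval a E) = 1 - aeval a E := by
  have hint : IsIntegral K a := Algebra.IsIntegral.isIntegral a
  have hne : minpoly K a ≠ 0 := minpoly.ne_zero hint
  obtain ⟨g, hg, hndvd⟩ := Polynomial.exists_eq_pow_rootMultiplicity_mul_and_not_dvd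
    (minpoly K a) hne 0
  set k := (minpoly K a).rootMultiplicity 0 with hk
  rw [C_0, sub_zero] at hg hndvd
  have hcop1 : IsCoprime (X : K[X]) g :=
    (Polynomial.irreducible_X.coprime_iff_not_dvd).2 hndvd
  have hcop : IsCoprime (X ^ k : K[X]) g := hcop1.pow_left
  obtain ⟨u, v, huv⟩ := hcop
  obtain ⟨p, q, hpq⟩ := hcop1
  have hzero : aeval a (X ^ k * g) = 0 := by rw [← hg, minpoly.aeval]
  obtain ⟨S, hS⟩ : ∃ S : K[X], S = ∑ i ∈ Finset.range k, X ^ i := ⟨_, rfl⟩
  have hgeom : (X - 1) * S = X ^ k - 1 := by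
    rw [hS, mul_comm]
    exact geom_sum_mul X k
  obtain ⟨E, hE⟩ : ∃ E : K[X], E = u * X ^ k := ⟨_, rfl⟩
  have hE1 : 1 - E = v * g := by
    rw [hE, ← huv]
    ring
  -- multiples of `X ^ k * g` act as zero
  have hz : ∀ r : K[X], aeval a (r * (X ^ k * g)) = 0 := by
    intro r
    rw [map_mul, hzero, mul_zero]
  have eq_of : ∀ P Q r : K[X], P - Q = r * (X ^ k * g) → aeval a P = aeval a Q := by
    intro P Q r h
    rw [← sub_eq_zero, ← map_sub, h, hz]
  refine ⟨E, p * E - S * (1 - E), ?_, ?_, ?_⟩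
  · rw [← map_mul]
    refine eq_of _ _ (-(u * v)) ?_
    have : E * E - E = -(E * (1 - E)) := by ring
    rw [this, hE1, hE]
    ring
  · have e1 : a * aeval a (p * E - S * (1 - E)) * aeval a E =
        aeval a (X * (p * E - S * (1 - E)) * E) := by
      rw [map_mul, map_mul, aeval_X]
    rw [e1]
    refine eq_of _ _ (-(q * u) - (q * u + X * p * u - X * S * v * 0) * u * 0 -
      (X * p * u * v) - X * S * v * u) ?_
    have h3 : E * (1 - E) = u * v * (X ^ k * g) := by
      rw [hE1, hE]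
      ring
    have h4 : q * g * E = q * u * (X ^ k * g) := by
      rw [hE]
      ring
    linear_combination E * hpq - h4 - X * p * h3 - X * S * h3
  · have e1 : (a - 1) * aeval a (p * E - S * (1 - E)) * (1 - aeval a E) =
        aeval a ((X - 1) * (p * E - S * (1 - E)) * (1 - E)) := by
      simp only [map_mul, map_sub, aeval_X, map_one]
    have e2 : (1 : Module.End K V) - aeval a E = aeval a (1 - E) := by
      simp only [map_sub, map_one]
    rw [e1, e2]
    refine eq_of _ _ ((X - 1) * p * (u * v) + (X - 1) * S * (u * v) - v) ?_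
    have h3 : E * (1 - E) = u * v * (X ^ k * g) := by
      rw [hE1, hE]
      ring
    have h5 : X ^ k * (1 - E) = v * (X ^ k * g) := by
      rw [hE1]
      ring
    linear_combination (X - 1) * p * h3 + (X - 1) * S * h3 - (1 - E) * hgeom - h5

end Split

end Pool.Agent.H858.CG
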