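import Pool.Graph.R_seed8.H914R2.KDefs
import Pool.Graph.R_seed8.W534.PoleDefs
import Pool.Graph.R_pool_sql_team_seeded_3997aac3.Q55.Lr.Defs

/-!
# The rank distance of the Kunneth components from the algebraic operators: definitions
-/

set_option autoImplicit false

open CategoryTheory AlgebraicGeometry

universe u v

namespace Pool.Agent.H858.CG

/-- The operator `P` is the projector onto the sum of the `gr j` with `j` in the set `J`. -/
def IsProjOn {K V : Type*} [Field K] [AddCommGroup V] [Module K V] (gr : ℕ → Submodule K V)
    (J : Set ℕ) (P : Module.End K V) : Prop :=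
  ∀ j, ∀ a ∈ gr j, (j ∈ J → P a = a) ∧ (j ∉ J → P a = 0)

/-- The set of the degrees `i` with `i + m ∈ J`. -/
def shiftBy (J : Set ℕ) (m : ℕ) : Set ℕ := {i | i + m ∈ J}

open Pool.Agent.H914 VarClass Obj WeilCohomology

variable {k : Type u} [Field k] {𝒱 : VarClass k} {ops : CycleOps 𝒱}

/-- The operator `u` on the cohomology of `Y` is given by a linear combination, with coefficients in
the coefficient field of the cohomology, of algebraic cycles of codimension `dim Y` on `Y × Y`. -/
def IsCycleOp (W : WeilCohomology.{u, v} ops) (Y : 𝒱.Obj) (u : Module.End W.K (W.H Y)) : Prop :=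
  ∃ c ∈ spanCycles W (Y.prod Y) (Y.dim : ℕ), W.corr c = u

/-- The distance of the sum `π_J` of the Kunneth components `π_j`, `j ∈ J`, of `Y` from the algebraic
operators: the smallest rank of an operator `π_J - u` on `H(Y)`, where `u` is a linear combination,
with coefficients in the coefficient field of the cohomology, of algebraic cycles of codimension
`dim Y` on `Y × Y`. -/
noncomputable def degDist (W : WeilCohomology.{u, v} ops) (Y : 𝒱.Obj) (J : Set ℕ) : ℕ :=
  Pool.Agent.Q55.Lr.rankDist (IsProjOn (W.gr Y) J) (IsCycleOp W Y)

/-- The sum `π_J` of the Kunneth components `π_j`, `j ∈ J`, is algebraic: it is induced by a linear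
combination of algebraic cycles of codimension `dim Y` on `Y × Y`. -/
def DegAlgebraic (W : WeilCohomology.{u, v} ops) (Y : 𝒱.Obj) (J : Set ℕ) : Prop :=
  ∃ u, IsCycleOp W Y u ∧ IsProjOn (W.gr Y) J u

end Pool.Agent.H858.CG
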