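import Pool.Agent.H858.CG.Dual
import Pool.Agent.H858.CG.DegDefs
import Pool.Agent.H858.GB.Ops
import Pool.Graph.R_seed8.W534.PoleA

/-!
# The distance of the Kunneth components from the algebraic operators on products
-/

set_option autoImplicit false
set_option linter.unusedSectionVars false
set_option linter.unusedVariables false

open CategoryTheory AlgebraicGeometry Finset

universe u v

namespace Pool.Agent.H858.CG

open Pool.Agent.H914 hiding iter map_iter
open Pool.Agent.H447 Pool.Agent.W534 VarClass Obj WeilCohomology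
open Pool.Agent.H281R3.HT Pool.Agent.W536.RR
open Pool.Agent.R936 (span_le_algSpan)
open Pool.Agent.H858.GB (iota_mem rho_mem rho_iota)

variable {k : Type u} [Field k] {𝒱 : VarClass k} {ops : CycleOps 𝒱}
  {W : WeilCohomology.{u, v} ops} {X Y V : 𝒱.Obj}

section Lin

variable {K V W : Type*} [Field K] [AddCommGroup V] [Module K V] [AddCommGroup W] [Module K W]

theorem rk_neg' (f : V →ₗ[K] W) : rk (-f) = rk f := by
  rw [rk, rk, LinearMap.range_neg]

theorem rk_sub_comm' (f g : V →ₗ[K] W) : rk (f - g) = rk (g - f) := by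
  rw [← rk_neg', neg_sub]

end Lin

open Classical in
/-- The projector `π_J`. -/
noncomputable def pJ (W : WeilCohomology.{u, v} ops) (Y : 𝒱.Obj) (J : Set ℕ) :
    Module.End W.K (W.H Y) :=
  scal (W.isInternal Y) fun i => if i ∈ J then 1 else 0

theorem pJ_mem {J : Set ℕ} {i : ℕ} (hi : i ∈ J) {x : W.H Y} (hx : x ∈ W.gr Y i) :
    pJ W Y J x = x := by
  rw [pJ, scal_apply _ _ hx, if_pos hi, one_smul]

theorem pJ_not {J : Set ℕ} {i : ℕ} (hi : i ∉ J) {x : W.H Y} (hx : x ∈ W.gr Y i) :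
    pJ W Y J x = 0 := by
  rw [pJ, scal_apply _ _ hx, if_neg hi, zero_smul]

theorem isProjOn_pJ (J : Set ℕ) : IsProjOn (W.gr Y) J (pJ W Y J) :=
  fun _ _ ha => ⟨fun h => pJ_mem h ha, fun h => pJ_not h ha⟩

theorem isProjOn_iff {J : Set ℕ} {P : Module.End W.K (W.H Y)} :
    IsProjOn (W.gr Y) J P ↔ P = pJ W Y J := by
  constructor
  · intro h
    apply gr_ext (W.isInternal Y)
    intro i a ha
    by_cases hi : i ∈ J
    · rw [(h i a ha).1 hi, pJ_mem hi ha]
    · rw [(h i a ha).2 hi, pJ_not hi ha]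
  · rintro rfl
    exact isProjOn_pJ J

theorem pJ_idem (J : Set ℕ) : pJ W Y J * pJ W Y J = pJ W Y J := by
  apply gr_ext (W.isInternal Y)
  intro i x hx
  by_cases hi : i ∈ J
  · rw [Module.End.mul_apply, pJ_mem hi hx, pJ_mem hi hx]
  · rw [Module.End.mul_apply, pJ_not hi hx, map_zero]

theorem mem_op0 {u : Module.End W.K (W.H Y)} : u ∈ KOp W Y Y 0 ↔
    ∃ c ∈ spanCycles W (Y.prod Y) (Y.dim : ℕ), W.corr c = u := by
  rw [mem_KOp_iff, add_zero]

/-- The algebraic operators of degree `2 (q t - q s)`. -/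
noncomputable def degCat (W : WeilCohomology.{u, v} ops) (Y : 𝒱.Obj) (s t : ℕ) :
    Submodule W.K (Module.End W.K (W.H Y)) := KOp W Y Y ((t : ℤ) - s)

theorem sysDeg (W : WeilCohomology.{u, v} ops) (Y : 𝒱.Obj) (J : Set ℕ) :
    Sys (degCat W Y) (fun s => pJ W Y (shiftBy J (2 * s))) where
  one s := KOp.cast (KOp.id Y) (sub_self _).symm
  mul := by
    intro s t u a b ha hb
    exact KOp.cast (KOp.comp ha hb) (by ring)
  idem s := pJ_idem _
  comm := by
    intro s t a ha
    apply gr_ext (W.isInternal Y)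
    intro i x hx
    have h1 := KOp.isHom ha i x (by rw [grZ_natCast]; exact hx)
    rw [Module.End.mul_apply, Module.End.mul_apply]
    by_cases h0 : (i : ℤ) + 2 * ((t : ℤ) - s) < 0
    · rw [grZ_of_neg h0, Submodule.mem_bot] at h1
      rw [h1, map_zero]
      by_cases hi : i ∈ shiftBy J (2 * t)
      · rw [pJ_mem hi hx, h1]
      · rw [pJ_not hi hx, map_zero]
    · obtain ⟨m, hm⟩ : ∃ m : ℕ, (i : ℤ) + 2 * ((t : ℤ) - s) = m :=
        ⟨((i : ℤ) + 2 * ((t : ℤ) - s)).toNat, by omega⟩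
      rw [hm, grZ_natCast] at h1
      have h2 : m ∈ shiftBy J (2 * s) ↔ i ∈ shiftBy J (2 * t) := by
        have h3 : m + 2 * s = i + 2 * t := by omega
        change m + 2 * s ∈ J ↔ i + 2 * t ∈ J
        rw [h3]
      by_cases hi : i ∈ shiftBy J (2 * t)
      · rw [pJ_mem hi hx, pJ_mem (h2.2 hi) h1]
      · rw [pJ_not hi hx, map_zero, pJ_not (fun h => hi (h2.1 h)) h1]

theorem exists_deg (W : WeilCohomology.{u, v} ops) (Y : 𝒱.Obj) (J : Set ℕ) :
    ∃ u ∈ KOp W Y Y 0, rk (u - pJ W Y J) = degDist W Y J := by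
  have h1 : degDist W Y J ∈ {r | ∃ f u, IsProjOn (W.gr Y) J f ∧ IsCycleOp W Y u ∧
      Module.finrank W.K (LinearMap.range (f - u)) = r} :=
    Nat.sInf_mem ⟨_, pJ W Y J, W.corr 0, isProjOn_pJ J, ⟨0, Submodule.zero_mem _, rfl⟩, rfl⟩
  obtain ⟨f, u, hf, ⟨c, hc, rfl⟩, h⟩ := h1
  rw [isProjOn_iff] at hf
  subst hf
  refine ⟨W.corr c, mem_op0.2 ⟨c, hc, rfl⟩, ?_⟩
  rw [rk_sub_comm']
  exact h

theorem deg_le {J : Set ℕ} {u : Module.End W.K (W.H Y)} (hu : u ∈ KOp W Y Y 0) :
    degDist W Y J ≤ rk (u - pJ W Y J) := by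
  obtain ⟨c, hc, rfl⟩ := mem_op0.1 hu
  rw [rk_sub_comm']
  exact Nat.sInf_le ⟨_, _, isProjOn_pJ J, ⟨c, hc, rfl⟩, rfl⟩

theorem dst_deg (W : WeilCohomology.{u, v} ops) (Y : 𝒱.Obj) (J : Set ℕ) (s : ℕ) :
    dst (degCat W Y) (fun s => pJ W Y (shiftBy J (2 * s))) s =
      degDist W Y (shiftBy J (2 * s)) := by
  apply le_antisymm
  · obtain ⟨u, hu, h⟩ := exists_deg W Y (shiftBy J (2 * s))
    refine (dst_le (s := s) (u := u) (KOp.cast hu (sub_self _).symm)).trans ?_
    exact h.le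
  · obtain ⟨u, hu, h⟩ := exists_dst (𝒞 := degCat W Y)
      (π := fun s => pJ W Y (shiftBy J (2 * s))) s
    rw [← h]
    exact deg_le (KOp.cast hu (sub_self _))

theorem deg_zero_iff {J : Set ℕ} : degDist W Y J = 0 ↔ DegAlgebraic W Y J := by
  constructor
  · intro h
    obtain ⟨u, hu, h1⟩ := exists_deg W Y J
    obtain ⟨c, hc, rfl⟩ := mem_op0.1 hu
    refine ⟨_, ⟨c, hc, rfl⟩, ?_⟩
    rw [h, rk, Submodule.finrank_eq_zero, LinearMap.range_eq_bot, sub_eq_zero] at h1
    rw [h1]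
    exact isProjOn_pJ J
  · rintro ⟨_, ⟨c, hc, rfl⟩, h⟩
    rw [isProjOn_iff] at h
    have h1 := deg_le (J := J) (mem_op0.2 ⟨c, hc, rfl⟩)
    rw [h, sub_self, rk_zero] at h1
    exact Nat.le_zero.1 h1

/-- The index set of the dual systems. -/
abbrev Idx (ops : CycleOps 𝒱) (V : 𝒱.Obj) : Type :=
  (q : Fin (V.dim + 1)) × Fin (numRank ops V q)

/-- The operator `z ↦ z × w`. -/
noncomputable def io (W : WeilCohomology.{u, v} ops) (Y : 𝒱.Obj) {V : 𝒱.Obj} (w : W.H V) :
    W.H Y →ₗ[W.K] W.H (Y.prod V) :=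
  LinearMap.mulRight W.K (W.map (snd Y V) w) ∘ₗ (W.map (fst Y V)).toLinearMap

/-- The operator `x ↦ pr_* (v x)`. -/
noncomputable def ro (W : WeilCohomology.{u, v} ops) (Y : 𝒱.Obj) {V : 𝒱.Obj} (v : W.H V) :
    W.H (Y.prod V) →ₗ[W.K] W.H Y :=
  W.push (fst Y V) ∘ₗ LinearMap.mulLeft W.K (W.map (snd Y V) v)

theorem io_apply (w : W.H V) (z : W.H Y) :
    io W Y w z = W.map (fst Y V) z * W.map (snd Y V) w := rfl

theorem ro_apply {v : W.H V} (hv : v ∈ algSpan W V) (z : W.H Y) (y : W.H V) :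
    ro W Y v (W.map (fst Y V) z * W.map (snd Y V) y) = W.tr V (v * y) • z :=
  rho_iota hv z

/-- The dual systems of algebraic classes. -/
theorem exists_systems (W : WeilCohomology.{u, v} ops) (V : 𝒱.Obj) :
    ∃ w v : Idx ops V → W.H V, (∀ s, w s ∈ spanCycles W V ((s.1 : ℕ) : ℤ)) ∧
      (∀ s, v s ∈ spanCycles W V ((V.dim - (s.1 : ℕ) : ℕ) : ℤ)) ∧
      ∀ s t, W.tr V (v s * w t) = if s = t then 1 else 0 := by
  have h1 : ∀ q : Fin (V.dim + 1), ∃ (w v : Fin (numRank ops V q) → W.H V),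
      (∀ a, w a ∈ spanCycles W V ((q : ℕ) : ℤ)) ∧
      (∀ a, v a ∈ spanCycles W V ((V.dim - (q : ℕ) : ℕ) : ℤ)) ∧
      ∀ a b, W.tr V (v a * w b) = if a = b then 1 else 0 := by
    intro q
    obtain ⟨w, v, h⟩ := exists_dual_sys (pair W V (q : ℕ) (V.dim - (q : ℕ)))
    have hr : rk (pair W V (q : ℕ) (V.dim - (q : ℕ))) = numRank ops V q :=
      (numRank_eq (W := W) (Nat.lt_succ_iff.1 q.2)).symm
    refine ⟨fun a => (w (Fin.cast hr.symm a) : W.H V), fun a => (v (Fin.cast hr.symm a) : W.H V),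
      fun a => (w _).2, fun a => (v _).2, fun a b => ?_⟩
    have h2 := h (Fin.cast hr.symm a) (Fin.cast hr.symm b)
    rw [pair_apply] at h2
    rw [algSpan_comm (span_le_algSpan (v (Fin.cast hr.symm a)).2), h2]
    simp only [Fin.cast_inj]
  choose w v hw hv h using h1
  refine ⟨fun s => w s.1 s.2, fun s => v s.1 s.2, fun s => hw _ _, fun s => hv _ _, ?_⟩
  rintro ⟨q, a⟩ ⟨q', b⟩
  by_cases hq : q = q'
  · subst hq
    change W.tr V (v q a * w q b) = _
    rw [h]
    simp only [Sigma.mk.injEq, true_and, heq_eq_eq]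
  · rw [if_neg (fun e => hq (congrArg Sigma.fst e))]
    have h1 := W.mul_mem (Pool.Agent.H914.span_gr (hv q a)) (Pool.Agent.H914.span_gr (hw q' b))
    refine W.tr_eq_zero h1 ?_
    have h2 : (q : ℕ) ≠ (q' : ℕ) := fun e => hq (Fin.ext e)
    have h3 := q.2
    omega

theorem sum_idx (f : ℕ → ℕ) : ∑ s : Idx ops V, f (s.1 : ℕ) =
    ∑ q ∈ range (V.dim + 1), numRank ops V q * f q := by
  rw [Fintype.sum_sigma, Finset.sum_range]
  refine Finset.sum_congr rfl fun q _ => ?_
  change ∑ _y : Fin (numRank ops V q), f (q : ℕ) = _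
  rw [Finset.sum_const, Finset.card_univ, Fintype.card_fin, smul_eq_mul]

theorem io_mem {w : W.H V} {q : ℕ} (hw : w ∈ spanCycles W V (q : ℤ)) :
    io W Y w ∈ KOp W Y (Y.prod V) q := iota_mem hw

theorem ro_mem {v : W.H V} {q : ℕ} (hq : q ≤ V.dim)
    (hv : v ∈ spanCycles W V ((V.dim - q : ℕ) : ℤ)) :
    ro W Y v ∈ KOp W (Y.prod V) Y (-(q : ℤ)) := by
  refine KOp.cast (rho_mem hv) ?_
  rw [Nat.cast_sub hq]
  ring

theorem pJ_io {w : W.H V} {q : ℕ} (hw : w ∈ spanCycles W V (q : ℤ)) (J : Set ℕ) :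
    pJ W (Y.prod V) J ∘ₗ io W Y w = io W Y w ∘ₗ pJ W Y (shiftBy J (2 * q)) := by
  apply gr_ext (W.isInternal Y)
  intro i x hx
  have h1 : io W Y w x ∈ W.gr (Y.prod V) (i + 2 * q) :=
    W.mul_mem (W.map_mem (fst Y V) hx) (W.map_mem (snd Y V) (Pool.Agent.H914.span_gr hw))
  rw [LinearMap.comp_apply, LinearMap.comp_apply]
  by_cases hi : i ∈ shiftBy J (2 * q)
  · rw [pJ_mem hi hx, pJ_mem (show i + 2 * q ∈ J from hi) h1]
  · rw [pJ_not hi hx, map_zero, pJ_not (show i + 2 * q ∉ J from hi) h1]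

theorem ro_io {v w : W.H V} (hv : v ∈ algSpan W V) :
    ro W Y v ∘ₗ io W Y w = W.tr V (v * w) • (1 : Module.End W.K (W.H Y)) := by
  apply LinearMap.ext
  intro z
  rw [LinearMap.comp_apply, io_apply, ro_apply hv]
  rfl

/-- **The lower bound.** -/
theorem deg_lower (W : WeilCohomology.{u, v} ops) (Y V : 𝒱.Obj) (J : Set ℕ) :
    ∑ q ∈ range (V.dim + 1), numRank ops V q * degDist W Y (shiftBy J (2 * q)) ≤
      degDist W (Y.prod V) J := by
  obtain ⟨w, v, hw, hv, hvw⟩ := exists_systems W V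
  obtain ⟨Θ, hΘ, h⟩ := exists_deg W (Y.prod V) J
  obtain ⟨n, hn⟩ : ∃ n, n = Fintype.card (Idx ops V) := ⟨_, rfl⟩
  let e : Fin n ≃ Idx ops V := (finCongr hn).trans (Fintype.equivFin _).symm
  have key := lower' (sysDeg W Y J) (q := fun i => ((e i).1 : ℕ)) (Θ := Θ)
    (P := pJ W (Y.prod V) J) (ι := fun t => io W Y (w (e t))) (ρ := fun s => ro W Y (v (e s)))
    (fun s t => by
      have h1 := KOp.comp (KOp.comp (ro_mem (Y := Y) (Nat.lt_succ_iff.1 (e s).1.2) (hv (e s))) hΘ)
        (io_mem (Y := Y) (hw (e t)))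
      exact KOp.cast h1 (by ring)) (fun s t => by
        rw [pJ_io (hw _), ← LinearMap.comp_assoc, ro_io (span_le_algSpan (hv _)), hvw]
        by_cases hst : s = t
        · subst hst
          rw [if_pos rfl, if_pos rfl, one_smul]
          rfl
        · rw [if_neg hst, if_neg (fun h => hst (e.injective h)), zero_smul]
          rfl)
  rw [h] at key
  refine le_trans (le_of_eq ?_) key
  rw [← sum_idx (V := V) fun q => degDist W Y (shiftBy J (2 * q))]
  rw [← Equiv.sum_comp e]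
  exact Finset.sum_congr rfl fun i _ => (dst_deg W Y J _).symm

/-- A dual system of full size resolves the identity. -/
theorem resolve {w v : Idx ops V → W.H V} (hw : ∀ s, w s ∈ spanCycles W V ((s.1 : ℕ) : ℤ))
    (hv : ∀ s, v s ∈ spanCycles W V ((V.dim - (s.1 : ℕ) : ℕ) : ℤ))
    (hvw : ∀ s t, W.tr V (v s * w t) = if s = t then 1 else 0)
    (hfull : Fintype.card (Idx ops V) = Module.finrank W.K (W.H V)) :
    ∑ t, io W Y (w t) ∘ₗ ro W Y (v t) = 1 := by
  classical
  have hli : LinearIndependent W.K w := by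
    rw [Fintype.linearIndependent_iff]
    intro g hg s
    have h1 := congrArg (fun x => W.tr V (v s * x)) hg
    simp only [Finset.mul_sum, mul_smul_comm, map_sum, map_smul, smul_eq_mul, hvw, mul_zero,
      map_zero] at h1
    rw [Finset.sum_eq_single s] at h1
    · rw [if_pos rfl, mul_one] at h1
      exact h1
    · intro t _ hts
      rw [if_neg hts.symm, mul_zero]
    · intro h
      exact absurd (Finset.mem_univ s) h
  have hspan : ∀ y : W.H V, ∑ t, W.tr V (v t * y) • w t = y := by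
    intro y
    have h1 : y ∈ Submodule.span W.K (Set.range w) := by
      rw [hli.span_eq_top_of_card_eq_finrank' hfull]
      exact Submodule.mem_top
    induction h1 using Submodule.span_induction with
    | mem x hx =>
      obtain ⟨s, rfl⟩ := hx
      rw [Finset.sum_eq_single s]
      · rw [hvw, if_pos rfl, one_smul]
      · intro t _ hts
        rw [hvw, if_neg hts, zero_smul]
      · intro h
        exact absurd (Finset.mem_univ s) h
    | zero => simp
    | add a b _ _ ha hb =>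
      simp only [mul_add, map_add, add_smul, Finset.sum_add_distrib]
      rw [ha, hb]
    | smul c a _ ha =>
      simp only [mul_smul_comm, map_smul, smul_assoc]
      rw [← Finset.smul_sum, ha]
  apply ext_kunneth_lin
  intro a b
  rw [LinearMap.sum_apply]
  simp only [LinearMap.comp_apply]
  have h2 : ∀ t, io W Y (w t) (ro W Y (v t) (W.map (fst Y V) a * W.map (snd Y V) b)) =
      W.map (fst Y V) a * W.map (snd Y V) (W.tr V (v t * b) • w t) := by
    intro t
    rw [ro_apply (span_le_algSpan (hv t)), io_apply, map_smul, map_smul, smul_mul_assoc,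
      mul_smul_comm]
  simp only [h2]
  rw [← Finset.mul_sum, ← map_sum, hspan]
  rfl

/-- **Equality when all cohomology is algebraic.** -/
theorem deg_cellular (W : WeilCohomology.{u, v} ops) (Y V : 𝒱.Obj) (J : Set ℕ)
    (h : ∑ q ∈ range (V.dim + 1), numRank ops V q = Module.finrank W.K (W.H V)) :
    degDist W (Y.prod V) J =
      ∑ q ∈ range (V.dim + 1), numRank ops V q * degDist W Y (shiftBy J (2 * q)) := by
  refine le_antisymm ?_ (deg_lower W Y V J)
  obtain ⟨w, v, hw, hv, hvw⟩ := exists_systems W V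
  have hcard : Fintype.card (Idx ops V) = Module.finrank W.K (W.H V) := by
    rw [← h]
    have h1 := sum_idx (ops := ops) (V := V) fun _ => 1
    simp only [mul_one] at h1
    rw [← h1, Finset.sum_const, Finset.card_univ, smul_eq_mul, mul_one]
  have hres := resolve (Y := Y) hw hv hvw hcard
  choose u hu hd using fun q : ℕ => exists_deg W Y (shiftBy J (2 * q))
  have hU : (∑ t, io W Y (w t) ∘ₗ u t.1 ∘ₗ ro W Y (v t)) ∈ KOp W (Y.prod V) (Y.prod V) 0 := by
    refine Submodule.sum_mem _ fun t _ => ?_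
    have h1 := KOp.comp (KOp.comp (io_mem (Y := Y) (hw t)) (hu t.1))
      (ro_mem (Y := Y) (Nat.lt_succ_iff.1 t.1.2) (hv t))
    exact KOp.cast h1 (by ring)
  refine (deg_le hU).trans ?_
  have h1 : (∑ t, io W Y (w t) ∘ₗ u t.1 ∘ₗ ro W Y (v t)) - pJ W (Y.prod V) J =
      ∑ t, io W Y (w t) ∘ₗ (u t.1 - pJ W Y (shiftBy J (2 * (t.1 : ℕ)))) ∘ₗ ro W Y (v t) := by
    have h2 : pJ W (Y.prod V) J = ∑ t, io W Y (w t) ∘ₗ pJ W Y (shiftBy J (2 * (t.1 : ℕ))) ∘ₗ
        ro W Y (v t) := by
      calc pJ W (Y.prod V) J = pJ W (Y.prod V) J ∘ₗ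
            (∑ t, io W Y (w t) ∘ₗ ro W Y (v t) : Module.End W.K (W.H (Y.prod V))) := by
            rw [hres]
            rfl
        _ = _ := by
            have h3 : pJ W (Y.prod V) J ∘ₗ
                (∑ t, io W Y (w t) ∘ₗ ro W Y (v t) : Module.End W.K (W.H (Y.prod V))) =
                ∑ t, pJ W (Y.prod V) J ∘ₗ io W Y (w t) ∘ₗ ro W Y (v t) :=
              Finset.mul_sum _ _ _
            rw [h3]
            refine Finset.sum_congr rfl fun t _ => ?_
            rw [← LinearMap.comp_assoc, pJ_io (hw t), LinearMap.comp_assoc]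
    rw [h2, ← Finset.sum_sub_distrib]
    refine Finset.sum_congr rfl fun t _ => ?_
    rw [LinearMap.sub_comp, LinearMap.comp_sub]
  rw [h1]
  refine (rk_sum_le _ _).trans ?_
  rw [← sum_idx (V := V) fun q => degDist W Y (shiftBy J (2 * q))]
  refine Finset.sum_le_sum fun t _ => ?_
  rw [← hd]
  exact (rk_comp_le_left _ _).trans (rk_comp_le_right _ _)

section Tensor

open TensorProduct

variable {K A B A' B' : Type*} [Field K] [AddCommGroup A] [Module K A] [AddCommGroup B]
  [Module K B] [AddCommGroup A'] [Module K A'] [AddCommGroup B'] [Module K B']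
  [Module.Finite K A] [Module.Finite K B] [Module.Finite K A'] [Module.Finite K B']

theorem rk_map_le (a : A →ₗ[K] A') (b : B →ₗ[K] B') :
    rk (TensorProduct.map a b) ≤ rk a * rk b := by
  have h1 : TensorProduct.map a b =
      TensorProduct.map (LinearMap.range a).subtype (LinearMap.range b).subtype ∘ₗ
        TensorProduct.map a.rangeRestrict b.rangeRestrict := by
    rw [← TensorProduct.map_comp]
    rfl
  rw [h1]
  refine (rk_comp_le_right _ _).trans ?_
  rw [rk, rk, rk, ← Module.finrank_tensorProduct]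
  exact LinearMap.finrank_range_le _

end Tensor

theorem rk_ext_le (a : Module.End W.K (W.H Y)) (b : Module.End W.K (W.H V)) :
    rk (extOp W a b) ≤ rk a * rk b := by
  rw [extOp]
  exact (rk_comp_le_left _ _).trans ((rk_comp_le_right _ _).trans (rk_map_le a b))

theorem ext_sub_left (a b : Module.End W.K (W.H Y)) (c : Module.End W.K (W.H V)) :
    extOp W (a - b) c = extOp W a c - extOp W b c := by
  rw [eq_sub_iff_add_eq, ← extOp_add_left, sub_add_cancel]

theorem pJ_single (j : ℕ) : pJ W V {j} = proj (W.isInternal V) j := by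
  apply gr_ext (W.isInternal V)
  intro i x hx
  by_cases hi : i = j
  · subst hi
    rw [pJ_mem (Set.mem_singleton i) hx, proj_same _ hx]
  · rw [pJ_not (J := {j}) (fun h => hi h) hx, proj_ne _ hx hi]

/-- The projector of a product. -/
theorem pJ_prod (J : Set ℕ) : pJ W (Y.prod V) J =
    ∑ j ∈ range (2 * V.dim + 1), extOp W (pJ W Y (shiftBy J j)) (pJ W V {j}) := by
  apply LinearMap.ext
  intro c
  refine W.kunneth_induction (p := fun c => pJ W (Y.prod V) J c =
    (∑ j ∈ range (2 * V.dim + 1), extOp W (pJ W Y (shiftBy J j)) (pJ W V {j})) c) ?_ ?_ c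
  · intro a b ha hb
    rw [map_add, map_add, ha, hb]
  · intro i j a ha b hb
    rw [LinearMap.sum_apply]
    by_cases hj : 2 * V.dim < j
    · have h2 := hb
      rw [W.gr_eq_bot V j hj, Submodule.mem_bot] at h2
      rw [h2]
      simp
    have h1 : W.map (fst Y V) a * W.map (snd Y V) b ∈ W.gr (Y.prod V) (i + j) :=
      W.mul_mem (W.map_mem _ ha) (W.map_mem _ hb)
    rw [Finset.sum_eq_single j]
    · rw [extOp_tmul, pJ_mem (Set.mem_singleton j) hb]
      by_cases hi : i ∈ shiftBy J j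
      · rw [pJ_mem hi ha, pJ_mem (show i + j ∈ J from hi) h1]
      · rw [pJ_not hi ha, pJ_not (show i + j ∉ J from hi) h1, map_zero, zero_mul]
    · intro l _ hl
      rw [extOp_tmul, pJ_not (J := {l}) (fun h => hl h.symm) hb, map_zero, mul_zero]
    · intro h
      exact absurd (Finset.mem_range.2 (by omega)) h

/-- **The upper bound.** -/
theorem deg_upper (W : WeilCohomology.{u, v} ops) (Y V : 𝒱.Obj) (J : Set ℕ)
    (hV : ∀ j, DegAlgebraic W V {j}) :
    degDist W (Y.prod V) J ≤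
      ∑ j ∈ range (2 * V.dim + 1), Module.finrank W.K (W.gr V j) * degDist W Y (shiftBy J j) := by
  choose u hu hd using fun j : ℕ => exists_deg W Y (shiftBy J j)
  have hp : ∀ j, pJ W V {j} ∈ KOp W V V 0 := by
    intro j
    obtain ⟨_, ⟨c, hc, rfl⟩, h⟩ := hV j
    rw [isProjOn_iff] at h
    rw [← h]
    exact mem_op0.2 ⟨c, hc, rfl⟩
  have hU : (∑ j ∈ range (2 * V.dim + 1), extOp W (u j) (pJ W V {j})) ∈
      KOp W (Y.prod V) (Y.prod V) 0 :=
    Submodule.sum_mem _ fun j _ => KOp.cast (KOp.ext (hu j) (hp j)) (add_zero 0)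
  refine (deg_le hU).trans ?_
  rw [pJ_prod, ← Finset.sum_sub_distrib]
  refine (rk_sum_le _ _).trans (Finset.sum_le_sum fun j _ => ?_)
  rw [← ext_sub_left, mul_comm, ← hd j]
  refine (rk_ext_le _ _).trans (Nat.mul_le_mul_left _ ?_)
  rw [pJ_single, rk, range_proj]

end Pool.Agent.H858.CG
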