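import Pool.Agent.H858.CG.Lower

/-!
# Dual systems, and the best idempotent approximation
-/

set_option autoImplicit false
set_option linter.unusedSectionVars false
set_option linter.unusedVariables false

open LinearMap Polynomial

namespace Pool.Agent.H858.CG

variable {K : Type*} [Field K]

section Dual

variable {M N : Type*} [AddCommGroup M] [Module K M] [AddCommGroup N] [Module K N]

/-- Independent functionals have a dual system of vectors. -/
theorem exists_dual_vec {r : ℕ} {e : Fin r → Module.Dual K N} (he : LinearIndependent K e) :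
    ∃ v : Fin r → N, ∀ s t, e t (v s) = if s = t then 1 else 0 := by
  classical
  have hsurj : LinearMap.range (LinearMap.pi e) = ⊤ := by
    by_contra hne
    have hlt : LinearMap.range (LinearMap.pi e) < ⊤ := lt_top_iff_ne_top.2 hne
    obtain ⟨g, hg, hle⟩ := Submodule.exists_le_ker_of_lt_top _ hlt
    apply hg
    have h1 : ∑ t, g (Pi.single t 1) • e t = 0 := by
      apply LinearMap.ext
      intro y
      have h2 : g (LinearMap.pi e y) = 0 := hle ⟨y, rfl⟩
      have h3 : (LinearMap.pi e y : Fin r → K) = ∑ t, (e t y) • (Pi.single t (1 : K)) := by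
        funext s
        rw [LinearMap.pi_apply, Finset.sum_apply, Finset.sum_eq_single s]
        · simp
        · intro t _ hts
          simp [hts.symm]
        · intro h
          exact absurd (Finset.mem_univ s) h
      rw [h3, map_sum] at h2
      simp only [map_smul, smul_eq_mul] at h2
      rw [LinearMap.sum_apply, LinearMap.zero_apply]
      simp only [LinearMap.smul_apply, smul_eq_mul]
      rw [← h2]
      exact Finset.sum_congr rfl fun t _ => mul_comm _ _
    have h4 := Fintype.linearIndependent_iff.1 he _ h1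
    apply LinearMap.pi_ext'
    intro t
    apply LinearMap.ext_ring
    exact h4 t
  have h5 : ∀ s, ∃ v : N, LinearMap.pi e v = (Pi.single s 1 : Fin r → K) := by
    intro s
    exact LinearMap.range_eq_top.1 hsurj _
  choose v hv using h5
  refine ⟨v, fun s t => ?_⟩
  have h6 := congrFun (hv s) t
  rw [LinearMap.pi_apply] at h6
  rw [h6, Pi.single_apply]
  exact if_congr ⟨fun h => h.symm, fun h => h.symm⟩ rfl rfl

/-- Vectors with independent images. -/
theorem exists_indep [Module.Finite K M] (p : M →ₗ[K] N) :
    ∃ w : Fin (rk p) → M, LinearIndependent K fun t => p (w t) := by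
  let b := Module.finBasis K (LinearMap.range p)
  have h1 : ∀ t : Fin (rk p), ∃ w : M, p w = (b t : N) := fun t => (b t).2
  choose w hw using h1
  have h2 : LinearIndependent K fun t => (b t : N) :=
    b.linearIndependent.map' (LinearMap.range p).subtype (Submodule.ker_subtype _)
  exact ⟨w, by simp only [hw]; exact h2⟩

/-- Dual systems for a pairing. -/
theorem exists_dual_sys [Module.Finite K M] (p : M →ₗ[K] Module.Dual K N) :
    ∃ (w : Fin (rk p) → M) (v : Fin (rk p) → N),
      ∀ s t, p (w t) (v s) = if s = t then 1 else 0 := by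
  obtain ⟨w, hw⟩ := exists_indep p
  obtain ⟨v, hv⟩ := exists_dual_vec hw
  exact ⟨w, v, hv⟩

end Dual

section Best

variable {H : Type*} [AddCommGroup H] [Module K H] {Λ : Type*}
  {𝒞 : Λ → Λ → Submodule K (Module.End K H)} {π : Λ → Module.End K H}

/-- The best approximation can be chosen idempotent. -/
theorem exists_best [Module.Finite K H] (hS : Sys 𝒞 π) (s : Λ) :
    ∃ ε ∈ 𝒞 s s, ε * ε = ε ∧ rk (ε - π s) = dst 𝒞 π s ∧
      ((ε - π s) * (ε - π s)) * ((ε - π s) * (ε - π s)) = (ε - π s) * (ε - π s) ∧
      rk ((ε - π s) * (ε - π s)) = dst 𝒞 π s := by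
  obtain ⟨a, ha, hd⟩ := exists_dst (𝒞 := 𝒞) (π := π) s
  have hc : a * π s = π s * a := (hS.comm ha).symm
  obtain ⟨E, Z, e0, e1, e2, e3, e4⟩ := exists_pivot (hS.idem s) hc
  set ε := aeval a E with hε
  have hεm : ε ∈ 𝒞 s s := hS.aeval_mem ha E
  have h1 : rk ((ε - π s) * (ε - π s)) ≤ dst 𝒞 π s := by
    rw [← hd, ← e3, mul_assoc]
    exact rk_comp_le_right (a - π s) _
  have h2 : rk (ε - π s) ≤ rk ((ε - π s) * (ε - π s)) := by
    conv_lhs => rw [← e1]
    exact rk_comp_le_left (ε - π s) _
  have h3 := dst_le (π := π) hεm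
  exact ⟨ε, hεm, e0, by omega, e2, by omega⟩

end Best

end Pool.Agent.H858.CG
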