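import Pool.Agent.H858.CG.Core

/-!
# The lower bound for the rank distance
-/

set_option autoImplicit false
set_option linter.unusedSectionVars false
set_option linter.unusedVariables false

open LinearMap Polynomial

namespace Pool.Agent.H858.CG

section Comm

variable {R : Type*} [CommRing R] {a z e p : R}

theorem c1 (h1 : e * e = e) (h2 : p * p = p) : (e - p) * ((e - p) * (e - p)) = e - p := by
  linear_combination (e + 1 - 3 * p) * h1 + (3 * e - p - 1) * h2

theorem c2 (h1 : e * e = e) (h2 : p * p = p) :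
    ((e - p) * (e - p)) * ((e - p) * (e - p)) = (e - p) * (e - p) := by
  linear_combination (e - p) * ((e + 1 - 3 * p) * h1 + (3 * e - p - 1) * h2)

theorem c3 (h1 : e * e = e) (h2 : p * p = p) (h3 : a * z * e = e)
    (h4 : (a - 1) * z * (1 - e) = 1 - e) :
    (a - p) * z * ((e - p) * (e - p)) = (e - p) * (e - p) := by
  linear_combination ((a - p) * z - 1) * (h1 + h2) + (1 - p) * h3 + p * h4 + z * e * h2 -
    z * (1 - e) * h2

end Comm

variable {K : Type*} [Field K] {H : Type*} [AddCommGroup H] [Module K H]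

/-- The pivot. -/
theorem exists_pivot [Module.Finite K H] {a p : Module.End K H} (hp : p * p = p)
    (hc : a * p = p * a) : ∃ E Z : K[X], aeval a E * aeval a E = aeval a E ∧
      (aeval a E - p) * ((aeval a E - p) * (aeval a E - p)) = aeval a E - p ∧
      ((aeval a E - p) * (aeval a E - p)) * ((aeval a E - p) * (aeval a E - p)) =
        (aeval a E - p) * (aeval a E - p) ∧
      (a - p) * aeval a Z * ((aeval a E - p) * (aeval a E - p)) =
        (aeval a E - p) * (aeval a E - p) ∧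
      ((aeval a E - p) * (aeval a E - p)) * (a - p) * aeval a Z =
        (aeval a E - p) * (aeval a E - p) := by
  obtain ⟨E, Z, h1, h3, h4⟩ := exists_split a
  refine ⟨E, Z, ?_⟩
  let S : Subalgebra K (Module.End K H) := Algebra.adjoin K {a, p}
  let _ : CommRing S := Algebra.adjoinCommRingOfComm K (by
    rintro x (rfl | rfl) y (rfl | rfl)
    · rfl
    · exact hc
    · exact hc.symm
    · rfl)
  have ha : a ∈ S := Algebra.subset_adjoin (Set.mem_insert _ _)
  have hp' : p ∈ S := Algebra.subset_adjoin (Set.mem_insert_of_mem _ rfl)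
  have hpoly : ∀ P : K[X], aeval a P ∈ S := by
    intro P
    exact Algebra.adjoin_mono (Set.singleton_subset_iff.2 (Set.mem_insert _ _))
      (Polynomial.aeval_mem_adjoin_singleton K a)
  have g1 : (⟨aeval a E, hpoly E⟩ : S) * ⟨aeval a E, hpoly E⟩ = ⟨aeval a E, hpoly E⟩ :=
    Subtype.ext h1
  have g2 : (⟨p, hp'⟩ : S) * ⟨p, hp'⟩ = ⟨p, hp'⟩ := Subtype.ext hp
  have g3 : (⟨a, ha⟩ : S) * ⟨aeval a Z, hpoly Z⟩ * ⟨aeval a E, hpoly E⟩ = ⟨aeval a E, hpoly E⟩ :=
    Subtype.ext h3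
  have g4 : ((⟨a, ha⟩ : S) - 1) * ⟨aeval a Z, hpoly Z⟩ * (1 - ⟨aeval a E, hpoly E⟩) =
      1 - ⟨aeval a E, hpoly E⟩ := Subtype.ext h4
  refine ⟨h1, congrArg Subtype.val (c1 g1 g2), congrArg Subtype.val (c2 g1 g2),
    congrArg Subtype.val (c3 g1 g2 g3 g4), ?_⟩
  have g5 := c3 g1 g2 g3 g4
  rw [mul_comm, ← mul_assoc] at g5
  exact congrArg Subtype.val g5

variable {Λ : Type*}

/-- A category of operators, with projectors which commute with it. -/
structure Sys (𝒞 : Λ → Λ → Submodule K (Module.End K H)) (π : Λ → Module.End K H) : Prop where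
  one : ∀ s, 1 ∈ 𝒞 s s
  mul : ∀ {s t u : Λ} {a b : Module.End K H}, a ∈ 𝒞 s t → b ∈ 𝒞 t u → a * b ∈ 𝒞 s u
  idem : ∀ s, π s * π s = π s
  comm : ∀ {s t : Λ} {a : Module.End K H}, a ∈ 𝒞 s t → π s * a = a * π t

/-- The rank distance. -/
noncomputable def dst (𝒞 : Λ → Λ → Submodule K (Module.End K H)) (π : Λ → Module.End K H)
    (s : Λ) : ℕ :=
  sInf {r | ∃ u ∈ 𝒞 s s, rk (u - π s) = r}

variable {𝒞 : Λ → Λ → Submodule K (Module.End K H)} {π : Λ → Module.End K H}

theorem dst_le {s : Λ} {u : Module.End K H} (hu : u ∈ 𝒞 s s) : dst 𝒞 π s ≤ rk (u - π s) :=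
  Nat.sInf_le ⟨u, hu, rfl⟩

theorem exists_dst (s : Λ) : ∃ u ∈ 𝒞 s s, rk (u - π s) = dst 𝒞 π s :=
  Nat.sInf_mem (s := {r | ∃ u ∈ 𝒞 s s, rk (u - π s) = r}) ⟨_, 0, Submodule.zero_mem _, rfl⟩

theorem Sys.pow_mem (hS : Sys 𝒞 π) {s : Λ} {a : Module.End K H} (ha : a ∈ 𝒞 s s) (n : ℕ) :
    a ^ n ∈ 𝒞 s s := by
  induction n with
  | zero =>
    rw [pow_zero]
    exact hS.one s
  | succ n ih =>
    rw [pow_succ]
    exact hS.mul ih ha

theorem Sys.aeval_mem (hS : Sys 𝒞 π) {s : Λ} {a : Module.End K H} (ha : a ∈ 𝒞 s s) (P : K[X]) :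
    aeval a P ∈ 𝒞 s s := by
  rw [aeval_eq_sum_range]
  exact Submodule.sum_mem _ fun i _ => Submodule.smul_mem _ _ (hS.pow_mem ha i)

/-- The operator on `H ^ n` with the entries `θ s t - δ_st π s`. -/
noncomputable def opN (n : ℕ) (θ : Fin n → Fin n → Module.End K H) (p : Fin n → Module.End K H) :
    (Fin n → H) →ₗ[K] (Fin n → H) :=
  LinearMap.pi fun s => (∑ t, θ s t ∘ₗ LinearMap.proj t) - p s ∘ₗ LinearMap.proj s

theorem opN_apply {n : ℕ} (θ : Fin n → Fin n → Module.End K H) (p : Fin n → Module.End K H)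
    (v : Fin n → H) (s : Fin n) : opN n θ p v s = ∑ t, θ s t (v t) - p s (v s) := by
  rw [opN, LinearMap.pi_apply, LinearMap.sub_apply, LinearMap.sum_apply]
  rfl

/-- `x, y ↦ (x, y_0, …)`. -/
def consL (n : ℕ) : (H × (Fin n → H)) →ₗ[K] (Fin (n + 1) → H) where
  toFun v := Fin.cons v.1 v.2
  map_add' v w := by
    funext s
    refine Fin.cases rfl (fun s => rfl) s
  map_smul' c v := by
    funext s
    refine Fin.cases rfl (fun s => rfl) s

/-- `v ↦ (v_0, (v_1, …))`. -/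
def tailL (n : ℕ) : (Fin (n + 1) → H) →ₗ[K] (H × (Fin n → H)) where
  toFun v := (v 0, Fin.tail v)
  map_add' v w := rfl
  map_smul' c v := rfl

theorem opN_succ {n : ℕ} (θ : Fin (n + 1) → Fin (n + 1) → Module.End K H)
    (p : Fin (n + 1) → Module.End K H) :
    tailL n ∘ₗ opN (n + 1) θ p ∘ₗ consL n =
      blk (θ 0 0 - p 0) (∑ t, θ 0 (Fin.succ t) ∘ₗ LinearMap.proj t)
        (LinearMap.pi fun s => θ (Fin.succ s) 0)
        (opN n (fun s t => θ s.succ t.succ) fun s => p s.succ) := by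
  apply LinearMap.ext
  rintro ⟨x, y⟩
  rw [blk_apply]
  refine Prod.ext ?_ ?_
  · change opN (n + 1) θ p (Fin.cons x y : Fin (n + 1) → H) 0 = _
    rw [opN_apply, Fin.sum_univ_succ, LinearMap.sub_apply, LinearMap.sum_apply]
    simp only [Fin.cons_zero, Fin.cons_succ, LinearMap.comp_apply, LinearMap.proj_apply]
    abel
  · funext s
    change opN (n + 1) θ p (Fin.cons x y : Fin (n + 1) → H) s.succ =
      θ s.succ 0 x + opN n (fun s t => θ s.succ t.succ) (fun s => p s.succ) y s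
    rw [opN_apply, Fin.sum_univ_succ, opN_apply]
    simp only [Fin.cons_zero, Fin.cons_succ]
    abel

/-- **Matrices are not closer to the projectors than the algebra.** -/
theorem lower [Module.Finite K H] (hS : Sys 𝒞 π) : ∀ (n : ℕ) (q : Fin n → Λ)
    (θ : Fin n → Fin n → Module.End K H) (_ : ∀ s t, θ s t ∈ 𝒞 (q s) (q t)),
    ∑ s, dst 𝒞 π (q s) ≤ rk (opN n θ fun s => π (q s))
  | 0, q, θ, hθ => by
    rw [Finset.univ_eq_empty, Finset.sum_empty]
    exact Nat.zero_le _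
  | n + 1, q, θ, hθ => by
    have hc : θ 0 0 * π (q 0) = π (q 0) * θ 0 0 := (hS.comm (hθ 0 0)).symm
    obtain ⟨E, Z, -, e1, e2, e3, e4⟩ := exists_pivot (hS.idem (q 0)) hc
    set ε := aeval (θ 0 0) E with hε
    set ζ := aeval (θ 0 0) Z with hζ
    set g := (ε - π (q 0)) * (ε - π (q 0)) with hg
    have hεm : ε ∈ 𝒞 (q 0) (q 0) := hS.aeval_mem (hθ 0 0) E
    have hζm : ζ ∈ 𝒞 (q 0) (q 0) := hS.aeval_mem (hθ 0 0) Z
    have h1 : dst 𝒞 π (q 0) ≤ rk g := by
      refine (dst_le hεm).trans ?_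
      conv_lhs => rw [← e1]
      exact rk_comp_le_left (ε - π (q 0)) g
    set θ' : Fin n → Fin n → Module.End K H := fun s t =>
      θ s.succ t.succ - θ s.succ 0 * ζ * θ 0 t.succ with hθ'
    have h2 := lower hS n (fun s => q s.succ) θ' fun s t => Submodule.sub_mem _ (hθ _ _)
      (hS.mul (hS.mul (hθ _ _) hζm) (hθ _ _))
    have h3 : opN n (fun s t => θ s.succ t.succ) (fun s => π (q s.succ)) -
        (LinearMap.pi fun s => θ (Fin.succ s) 0) ∘ₗ ζ ∘ₗ
          (∑ t, θ 0 (Fin.succ t) ∘ₗ LinearMap.proj t) = opN n θ' fun s => π (q s.succ) := by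
      apply LinearMap.ext
      intro v
      funext s
      rw [LinearMap.sub_apply, Pi.sub_apply, opN_apply, opN_apply, LinearMap.comp_apply,
        LinearMap.comp_apply, LinearMap.pi_apply, LinearMap.sum_apply, map_sum, map_sum]
      simp only [hθ', LinearMap.sub_apply, Finset.sum_sub_distrib, Module.End.mul_apply,
        LinearMap.comp_apply, LinearMap.proj_apply]
      abel
    have h4 := schur (b := ∑ t, θ 0 (Fin.succ t) ∘ₗ LinearMap.proj t)
      (c := LinearMap.pi fun s => θ (Fin.succ s) 0)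
      (D := opN n (fun s t => θ s.succ t.succ) (fun s => π (q s.succ))) e2 e3 e4
    rw [h3, ← opN_succ θ fun s => π (q s)] at h4
    rw [Fin.sum_univ_succ]
    calc dst 𝒞 π (q 0) + ∑ s : Fin n, dst 𝒞 π (q s.succ) ≤
        rk g + rk (opN n θ' fun s => π (q s.succ)) := Nat.add_le_add h1 h2
      _ ≤ _ := h4
      _ ≤ rk (opN (n + 1) θ (fun s => π (q s)) ∘ₗ consL n) := rk_comp_le_left _ _
      _ ≤ _ := rk_comp_le_right _ _

/-- The lower bound for an operator on another space. -/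
theorem lower' [Module.Finite K H] (hS : Sys 𝒞 π) {H' : Type*} [AddCommGroup H'] [Module K H']
    [Module.Finite K H'] {n : ℕ} {q : Fin n → Λ} {Θ P : Module.End K H'}
    {ι : Fin n → (H →ₗ[K] H')} {ρ : Fin n → (H' →ₗ[K] H)}
    (h1 : ∀ s t, ρ s ∘ₗ Θ ∘ₗ ι t ∈ 𝒞 (q s) (q t))
    (h2 : ∀ s t, ρ s ∘ₗ P ∘ₗ ι t = if s = t then π (q s) else 0) :
    ∑ s, dst 𝒞 π (q s) ≤ rk (Θ - P) := by
  refine (lower hS n q (fun s t => ρ s ∘ₗ Θ ∘ₗ ι t) h1).trans ?_
  have h3 : opN n (fun s t => ρ s ∘ₗ Θ ∘ₗ ι t) (fun s => π (q s)) =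
      (LinearMap.pi ρ) ∘ₗ (Θ - P) ∘ₗ (∑ t, ι t ∘ₗ LinearMap.proj t) := by
    apply LinearMap.ext
    intro v
    funext s
    rw [opN_apply, LinearMap.comp_apply, LinearMap.pi_apply, LinearMap.comp_apply,
      LinearMap.sum_apply, map_sum, map_sum]
    simp only [LinearMap.comp_apply, LinearMap.proj_apply, LinearMap.sub_apply, map_sub,
      Finset.sum_sub_distrib]
    congr 1
    have h4 : ∀ t, ρ s (P (ι t (v t))) = if s = t then π (q s) (v t) else 0 := by
      intro t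
      have h5 := LinearMap.congr_fun (h2 s t) (v t)
      rw [LinearMap.comp_apply, LinearMap.comp_apply] at h5
      rw [h5]
      split_ifs
      · rfl
      · rfl
    simp only [h4]
    rw [Finset.sum_ite_eq Finset.univ s, if_pos (Finset.mem_univ s)]
  rw [h3]
  exact (rk_comp_le_left _ _).trans (rk_comp_le_right _ _)

end Pool.Agent.H858.CG
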