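import Pool.Agent.H858.CG.Dual
import Pool.Graph.R_pool_sql_team_seeded_1acbe0a2.Y121.ZI.RatLaw
import Pool.Graph.R_pool_sql_team_seeded_1acbe0a2.Y824.ZI.Cnc

/-!
# The distance of the even Kunneth projector of a dg category from the correspondences
-/

set_option autoImplicit false
set_option linter.unusedSectionVars false
set_option linter.unusedVariables false

open scoped TensorProduct

universe u v w

namespace Pool.Agent.H858.CG.NC

open Pool.Agent.Y121.ZI Pool.Agent.Y121.ZI.NCTheory

/-- The smallest rank of an operator `f - u`, where `u` is a linear combination of maps in `S`. -/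
noncomputable def distTo {K : Type u} {V : Type w} [Field K] [AddCommGroup V] [Module K V]
    (f : V →ₗ[K] V) (S : Maps K V V) : ℕ :=
  sInf {r | ∃ u, InSpan S u ∧ Module.finrank K (LinearMap.range (f - u)) = r}

/-- The distance of the even Künneth projector `π_+` of the smooth proper dg category `A` from the
correspondences: the smallest rank of an operator `π_+ - u` on `H(A)` (`HP_±(A)`, or `TP_±(A)` with `p`
inverted), where `u` is a linear combination, with coefficients in the coefficient field `K`, of maps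
induced by elements of `K_0(Aᵒᵖ ⊗ A)`. -/
noncomputable def ncDist {K : Type u} [Field K] (T : NCTheory.{u, v, w} K) (A : T.Obj) : ℕ :=
  distTo (evenProj (T.par A)) (T.cor A A)

/-- The dimension of `H(A)`. -/
noncomputable def bdim {K : Type u} [Field K] (T : NCTheory.{u, v, w} K) (A : T.Obj) : ℕ :=
  Module.finrank K (T.H A)

/-- The conjecture `C^+_nc(A)`: a nonzero multiple of the even Künneth projector of `A` is induced by
an element of `K_0(Aᵒᵖ ⊗ A)`. -/
def CPlus {K : Type u} [Field K] (T : NCTheory.{u, v, w} K) (A : T.Obj) : Prop :=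
  RationalIn (T.cor A A) (evenProj (T.par A))

section Lin

variable {K V W : Type*} [Field K] [AddCommGroup V] [Module K V] [AddCommGroup W] [Module K W]

theorem rk_smul {c : K} (hc : c ≠ 0) (f : V →ₗ[K] W) : rk (c • f) = rk f := by
  rw [rk, rk, LinearMap.range_smul f c hc]

theorem rk_neg (f : V →ₗ[K] W) : rk (-f) = rk f := by
  rw [rk, rk, LinearMap.range_neg]

theorem rk_sub_comm (f g : V →ₗ[K] W) : rk (f - g) = rk (g - f) := by
  rw [← rk_neg, neg_sub]

theorem trace_idem [FiniteDimensional K V] {f : V →ₗ[K] V} (h : f ∘ₗ f = f) :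
    LinearMap.trace K V f = (rk f : K) := by
  have hp : LinearMap.IsProj (LinearMap.range f) f := by
    refine ⟨fun x => LinearMap.mem_range_self f x, ?_⟩
    rintro _ ⟨x, rfl⟩
    exact congrArg (fun g : V →ₗ[K] V => g x) h
  exact hp.trace

theorem rk_one_sub [FiniteDimensional K V] [CharZero K] {g : Module.End K V} (hg : g * g = g) :
    rk (1 - g) + rk g = Module.finrank K V := by
  have h1 : (1 - g) * (1 - g) = 1 - g := by
    rw [sub_mul, mul_sub, mul_sub, hg, one_mul, mul_one, sub_self, sub_zero, one_mul]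
  have h2 := trace_idem hg
  have h3 := trace_idem h1
  rw [map_sub, LinearMap.trace_one, h2] at h3
  have h4 : ((Module.finrank K V : ℕ) : K) = ((rk (1 - g) + rk g : ℕ) : K) := by
    rw [Nat.cast_add]
    exact sub_eq_iff_eq_add.1 h3
  exact (Nat.cast_injective h4).symm

theorem parity_id {R : Type*} [Ring R] {π ε : R} (h1 : π * π = π) (h2 : ε * ε = ε)
    (hc : π * ε = ε * π) : (2 * π - 1) * (1 - 2 * ((ε - π) * (ε - π))) = 2 * ε - 1 := by
  have e : (ε - π) * (ε - π) = ε + π - 2 * (π * ε) := by
    calc (ε - π) * (ε - π) = ε * ε + π * π - ε * π - π * ε := by noncomm_ring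
      _ = ε + π - π * ε - π * ε := by rw [h1, h2, hc]
      _ = _ := by noncomm_ring
  rw [e]
  calc (2 * π - 1) * (1 - 2 * (ε + π - 2 * (π * ε))) =
        (2 * ε - 1) + (π * π - π) * (8 * ε - 4) := by noncomm_ring
    _ = _ := by rw [h1, sub_self, zero_mul, add_zero]

end Lin

variable {K : Type u} [Field K] [CharZero K] {T : NCTheory.{u, v, w} K} {A B : T.Obj}

instance instFin (A : T.Obj) : FiniteDimensional K (T.H A) := T.fin A

theorem two_ep : (2 : K) • evenProj (T.par A) = 1 + T.par A := by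
  rw [evenProj, smul_smul, mul_inv_cancel₀ (two_ne_zero (α := K)), one_smul]
  rfl

theorem par_eq : T.par A = (2 : K) • evenProj (T.par A) - 1 := by
  rw [two_ep]
  abel

theorem par_sq : (T.par A * T.par A : Module.End K (T.H A)) = 1 :=
  LinearMap.ext fun x => T.par_par A x

theorem ep_idem : (evenProj (T.par A) * evenProj (T.par A) : Module.End K (T.H A)) =
    evenProj (T.par A) := by
  have h1 : ((1 + T.par A) * (1 + T.par A) : Module.End K (T.H A)) =
      (2 : K) • (1 + T.par A : Module.End K (T.H A)) := by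
    have h2 := par_sq (A := A)
    rw [two_smul, mul_add, add_mul, add_mul, mul_one, one_mul, mul_one, h2]
    abel
  rw [← two_ep, smul_mul_smul_comm] at h1
  have h3 : ((2 : K) * 2) • (evenProj (T.par A) * evenProj (T.par A) : Module.End K (T.H A)) =
      ((2 : K) * 2) • (evenProj (T.par A) : Module.End K (T.H A)) := by
    rw [h1, smul_smul]
  exact smul_right_injective _ (mul_ne_zero (two_ne_zero (α := K)) two_ne_zero) h3

theorem ep_comm {a : Module.End K (T.H A)} (ha : a ∈ T.S A A) :
    (evenProj (T.par A) * a : Module.End K (T.H A)) = a * evenProj (T.par A) := by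
  have h1 : (T.par A * a : Module.End K (T.H A)) = a * T.par A := (S_par ha).symm
  have h2 : (2 : K) • (evenProj (T.par A) * a : Module.End K (T.H A)) =
      (2 : K) • (a * evenProj (T.par A) : Module.End K (T.H A)) := by
    rw [← smul_mul_assoc, ← mul_smul_comm, two_ep, add_mul, mul_add, one_mul, mul_one, h1]
  exact smul_right_injective _ (two_ne_zero (α := K)) h2

theorem sysNC (T : NCTheory.{u, v, w} K) (A : T.Obj) :
    Sys (Λ := Unit) (fun _ _ => T.S A A) (fun _ => evenProj (T.par A)) where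
  one _ := S_id
  mul ha hb := S_comp hb ha
  idem _ := ep_idem
  comm ha := ep_comm ha

theorem nc_le {u : Module.End K (T.H A)} (hu : u ∈ T.S A A) :
    ncDist T A ≤ rk (evenProj (T.par A) - u) :=
  Nat.sInf_le ⟨u, hu, rfl⟩

theorem nc_spec (T : NCTheory.{u, v, w} K) (A : T.Obj) :
    ∃ u ∈ T.S A A, rk (evenProj (T.par A) - u) = ncDist T A :=
  Nat.sInf_mem (s := {r | ∃ u : T.H A →ₗ[K] T.H A, InSpan (T.cor A A) u ∧
    Module.finrank K (LinearMap.range (evenProj (T.par A) - u)) = r})
    ⟨_, 0, Submodule.zero_mem _, rfl⟩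

theorem dst_nc (T : NCTheory.{u, v, w} K) (A : T.Obj) :
    dst (Λ := Unit) (fun _ _ => T.S A A) (fun _ => evenProj (T.par A)) () = ncDist T A := by
  apply le_antisymm
  · obtain ⟨u, hu, h⟩ := nc_spec T A
    refine (dst_le (s := ()) hu).trans ?_
    rw [rk_sub_comm]
    exact h.le
  · obtain ⟨u, hu, h⟩ := exists_dst (Λ := Unit) (𝒞 := fun _ _ => T.S A A)
      (π := fun _ => evenProj (T.par A)) ()
    rw [← h, rk_sub_comm]
    exact nc_le hu

theorem trace_line (φ : T.H T.one →ₗ[K] T.H T.one) :
    φ T.e = LinearMap.trace K (T.H T.one) (T.par T.one ∘ₗ φ) • T.e := by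
  obtain ⟨c, hc⟩ := T.line.2.1 (φ T.e)
  have h1 : T.par T.one ∘ₗ φ = c • LinearMap.id := by
    apply LinearMap.ext
    intro x
    obtain ⟨d, rfl⟩ := T.line.2.1 x
    rw [LinearMap.comp_apply, map_smul, hc, map_smul, map_smul, T.line.2.2, LinearMap.smul_apply,
      LinearMap.id_apply, smul_smul, smul_smul, mul_comm]
  rw [h1, map_smul, LinearMap.trace_id, finrank_one, Nat.cast_one, smul_eq_mul, mul_one]
  exact hc

/-- Dual systems. -/
theorem exists_systems (T : NCTheory.{u, v, w} K) (B : T.Obj) :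
    ∃ (w : Fin (T.rank B) → (T.H T.one →ₗ[K] T.H B)) (v : Fin (T.rank B) → (T.H B →ₗ[K] T.H T.one)),
      (∀ s, w s ∈ T.S T.one B) ∧ (∀ s, v s ∈ T.S B T.one) ∧
      ∀ s t, v s (w t T.e) = (if s = t then 1 else 0 : K) • T.e := by
  obtain ⟨v, w, h⟩ := exists_dual_sys (F T.one B LinearMap.id LinearMap.id : T.S B T.one →ₗ[K]
    Module.Dual K (T.S T.one B))
  have hr : rk (F T.one B LinearMap.id LinearMap.id : T.S B T.one →ₗ[K]
    Module.Dual K (T.S T.one B)) = T.rank B := ((steps T).rank B).symm
  refine ⟨fun a => (w (Fin.cast hr.symm a) : T.H T.one →ₗ[K] T.H B),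
    fun a => (v (Fin.cast hr.symm a) : T.H B →ₗ[K] T.H T.one), fun a => (w _).2, fun a => (v _).2,
    fun s t => ?_⟩
  have h2 : LinearMap.trace K (T.H T.one) (T.par T.one ∘ₗ
      ((v (Fin.cast hr.symm s) : T.H B →ₗ[K] T.H T.one) ∘ₗ
        (w (Fin.cast hr.symm t) : T.H T.one →ₗ[K] T.H B))) = _ :=
    h (Fin.cast hr.symm t) (Fin.cast hr.symm s)
  have h3 := trace_line ((v (Fin.cast hr.symm s) : T.H B →ₗ[K] T.H T.one) ∘ₗ
        (w (Fin.cast hr.symm t) : T.H T.one →ₗ[K] T.H B))
  rw [h2, LinearMap.comp_apply] at h3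
  rw [h3]
  congr 1
  simp only [Fin.cast_inj]
  exact if_congr eq_comm rfl rfl

theorem ep_kx {y : T.H B} (hy : T.par B y = y) (x : T.H A) :
    evenProj (T.par (T.ten A B)) (kx x y) = kx (evenProj (T.par A) x) y := by
  rw [evenProj, evenProj, LinearMap.smul_apply, LinearMap.smul_apply, LinearMap.add_apply,
    LinearMap.add_apply, par_kx, hy, LinearMap.id_apply, LinearMap.id_apply, kx_smul_left,
    kx_add_left]

/-- **The lower bound.** -/
theorem nc_lower (T : NCTheory.{u, v, w} K) (A B : T.Obj) :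
    T.rank B * ncDist T A ≤ ncDist T (T.ten A B) := by
  obtain ⟨w, v, hw, hv, h⟩ := exists_systems T B
  obtain ⟨Θ, hΘ, hd⟩ := nc_spec T (T.ten A B)
  obtain ⟨f, hf, g, hg, hf1, hg1⟩ := exists_runit A
  have key := lower' (sysNC T A) (q := fun _ => ()) (Θ := Θ)
    (P := evenProj (T.par (T.ten A B)))
    (ι := fun t => ex (LinearMap.id : T.H A →ₗ[K] T.H A) (w t) ∘ₗ g)
    (ρ := fun s => f ∘ₗ ex (LinearMap.id : T.H A →ₗ[K] T.H A) (v s))
    (fun s t => S_comp (S_comp (S_comp hg (S_ex S_id (hw t))) hΘ) (S_comp (S_ex S_id (hv s)) hf))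
    (fun s t => by
      apply LinearMap.ext
      intro x
      have hy : T.par B (w t T.e) = w t T.e := by
        have h1 := LinearMap.congr_fun (S_par (hw t)) T.e
        rw [LinearMap.comp_apply, LinearMap.comp_apply, T.line.2.2] at h1
        exact h1.symm
      simp only [LinearMap.comp_apply]
      rw [hg1, ex_kx, LinearMap.id_apply, ep_kx hy, ex_kx, LinearMap.id_apply, h, kx_smul_right,
        map_smul, hf1]
      split_ifs
      · rw [one_smul]
      · rw [zero_smul]
        rfl)
  rw [Finset.sum_const, Finset.card_univ, Fintype.card_fin, smul_eq_mul, dst_nc,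
    rk_sub_comm] at key
  rw [← hd]
  exact key

theorem ex_sub_left (a b : T.H A →ₗ[K] T.H A) (c : T.H B →ₗ[K] T.H B) :
    ex (a - b) c = ex a c - ex b c := by
  rw [eq_sub_iff_add_eq, ← ex_add_left, sub_add_cancel]

theorem ex_sub_right (a : T.H A →ₗ[K] T.H A) (b c : T.H B →ₗ[K] T.H B) :
    ex a (b - c) = ex a b - ex a c := by
  rw [eq_sub_iff_add_eq, ← ex_add_right, sub_add_cancel]

theorem rk_ex {g : Module.End K (T.H A)} {h : Module.End K (T.H B)} (hg : g * g = g)
    (hh : h * h = h) : rk (ex g h : T.H (T.ten A B) →ₗ[K] T.H (T.ten A B)) = rk g * rk h := by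
  have h1 : (ex g h : T.H (T.ten A B) →ₗ[K] T.H (T.ten A B)) ∘ₗ ex g h = ex g h := by
    rw [ex_comp]
    change ex (g * g) (h * h) = _
    rw [hg, hh]
  have h2 := trace_idem h1
  rw [trace_ex, trace_idem hg, trace_idem hh] at h2
  exact_mod_cast h2.symm

/-- **The upper bound.** -/
theorem nc_upper (T : NCTheory.{u, v, w} K) (A B : T.Obj) :
    ncDist T (T.ten A B) + 2 * (ncDist T A * ncDist T B) ≤
      ncDist T A * Module.finrank K (T.H B) + Module.finrank K (T.H A) * ncDist T B := by
  obtain ⟨ε, hε, e1, e2, e3, e4⟩ := exists_best (sysNC T A) ()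
  obtain ⟨ε', hε', e1', e2', e3', e4'⟩ := exists_best (sysNC T B) ()
  rw [dst_nc] at e2 e4 e2' e4'
  set π := evenProj (T.par A) with hπ
  set π' := evenProj (T.par B) with hπ'
  set G := (ε - π) * (ε - π) with hG
  set G' := (ε' - π') * (ε' - π') with hG'
  have hc : π * ε = ε * π := ep_comm hε
  have hc' : π' * ε' = ε' * π' := ep_comm hε'
  have t1 : ∀ (C : T.Obj) (a : Module.End K (T.H C)), (2 : K) • a = 2 * a := by
    intro C a
    rw [two_smul, two_mul]
  have hA : (T.par A : Module.End K (T.H A)) * (1 - (2 : K) • G) = (2 : K) • ε - 1 := by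
    rw [par_eq, t1, t1, t1]
    exact parity_id ep_idem e1 hc
  have hA' : (T.par B : Module.End K (T.H B)) * (1 - (2 : K) • G') = (2 : K) • ε' - 1 := by
    rw [par_eq, t1, t1, t1]
    exact parity_id ep_idem e1' hc'
  have hu : ex ((2 : K) • ε - 1) ((2 : K) • ε' - 1) ∈ T.S (T.ten A B) (T.ten A B) :=
    S_ex (Submodule.sub_mem _ (Submodule.smul_mem _ _ hε) S_id)
      (Submodule.sub_mem _ (Submodule.smul_mem _ _ hε') S_id)
  have hone : (ex (1 : Module.End K (T.H A)) (1 : Module.End K (T.H B)) :
      Module.End K (T.H (T.ten A B))) = 1 := ex_id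
  have hmul : ∀ (a a' : Module.End K (T.H A)) (b b' : Module.End K (T.H B)),
      (ex (a * a') (b * b') : Module.End K (T.H (T.ten A B))) =
        (ex a b : Module.End K (T.H (T.ten A B))) * ex a' b' := by
    intro a a' b b'
    exact (ex_comp a' b' a b).symm
  have h1 : (T.par (T.ten A B) : Module.End K (T.H (T.ten A B))) -
      ex ((2 : K) • ε - 1) ((2 : K) • ε' - 1) = (T.par (T.ten A B) : Module.End K _) *
        ((2 : K) • (ex G (1 - G') + ex (1 - G) G')) := by
    rw [← hA, ← hA', hmul, ← par_ex]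
    have h2 : (1 : Module.End K (T.H (T.ten A B))) - ex (1 - (2 : K) • G)
        (1 - (2 : K) • G') = (2 : K) • (ex G (1 - G') + ex (1 - G) G') := by
      rw [ex_sub_left, ex_sub_right, ex_sub_right, ex_sub_right, ex_sub_left, hone, ex_smul_left,
        ex_smul_left, ex_smul_right, ex_smul_right]
      simp only [two_smul]
      abel
    rw [← h2, mul_sub, mul_one]
  have h3 : evenProj (T.par (T.ten A B)) - (2 : K)⁻¹ •
      ((ex ((2 : K) • ε - 1) ((2 : K) • ε' - 1) : Module.End K (T.H (T.ten A B))) + 1) =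
        (2 : K)⁻¹ • ((T.par (T.ten A B) : Module.End K (T.H (T.ten A B))) -
          ex ((2 : K) • ε - 1) ((2 : K) • ε' - 1)) := by
    conv_rhs => rw [par_eq]
    rw [smul_add, smul_sub, smul_sub, smul_smul,
      inv_mul_cancel₀ (two_ne_zero (α := K)), one_smul]
    abel
  have h4 := nc_le (T := T) (A := T.ten A B) (u := (2 : K)⁻¹ •
      ((ex ((2 : K) • ε - 1) ((2 : K) • ε' - 1) : Module.End K (T.H (T.ten A B))) + 1))
    (Submodule.smul_mem _ _ (Submodule.add_mem _ hu S_id))
  rw [h3, h1] at h4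
  have h5 : ncDist T (T.ten A B) ≤ rk G * rk (1 - G') + rk (1 - G) * rk G' := by
    refine h4.trans ?_
    rw [rk_smul (inv_ne_zero (two_ne_zero (α := K)))]
    refine (rk_comp_le_left (T.par (T.ten A B)) _).trans ?_
    rw [rk_smul (two_ne_zero (α := K))]
    refine (rk_add_le _ _).trans ?_
    have i1 : (1 - G) * (1 - G) = 1 - G := by
      rw [sub_mul, mul_sub, mul_sub, e3, one_mul, mul_one, sub_self, sub_zero, one_mul]
    have i2 : (1 - G') * (1 - G') = 1 - G' := by
      rw [sub_mul, mul_sub, mul_sub, e3', one_mul, mul_one, sub_self, sub_zero, one_mul]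
    rw [rk_ex e3 i2, rk_ex i1 e3']
  have h6 := rk_one_sub e3
  have h7 := rk_one_sub e3'
  rw [e4] at h6 h5
  rw [e4'] at h7 h5
  rw [← h6, ← h7]
  nlinarith [h5]

theorem nc_two_le (T : NCTheory.{u, v, w} K) (A : T.Obj) :
    2 * ncDist T A ≤ Module.finrank K (T.H A) := by
  have h1 := nc_le (T := T) (A := A) (u := 0) (Submodule.zero_mem _)
  have h2 := nc_le (T := T) (A := A) (u := 1) S_id
  rw [sub_zero] at h1
  have h3 := rk_one_sub (ep_idem (T := T) (A := A))
  rw [rk_sub_comm] at h3
  omega

theorem nc_algebraic (T : NCTheory.{u, v, w} K) (B : T.Obj)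
    (h : T.rank B = Module.finrank K (T.H B)) : ncDist T B = 0 := by
  let E : T.S T.one B →ₗ[K] T.H B :=
    { toFun := fun φ => (φ : T.H T.one →ₗ[K] T.H B) T.e
      map_add' := fun a b => rfl
      map_smul' := fun c a => rfl }
  have hinj : Function.Injective E := by
    intro a b hab
    apply Subtype.ext
    apply LinearMap.ext
    intro x
    obtain ⟨c, rfl⟩ := T.line.2.1 x
    have h1 : (a : T.H T.one →ₗ[K] T.H B) T.e = (b : T.H T.one →ₗ[K] T.H B) T.e := hab
    rw [map_smul, map_smul, h1]
  have h1 := LinearMap.finrank_le_finrank_of_injective hinj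
  have h2 : T.rank B ≤ Module.finrank K (T.S T.one B) := by
    rw [(steps T).rank B, a_comm S_id]
    exact LinearMap.finrank_range_le _
  have h3 : Function.Surjective E :=
    (LinearMap.injective_iff_surjective_of_finrank_eq_finrank (by omega)).1 hinj
  have h4 : evenProj (T.par B) = LinearMap.id := by
    apply LinearMap.ext
    intro y
    obtain ⟨φ, rfl⟩ := h3 y
    have h5 := LinearMap.congr_fun (S_par φ.2) T.e
    rw [LinearMap.comp_apply, LinearMap.comp_apply, T.line.2.2] at h5
    change evenProj (T.par B) ((φ : T.H T.one →ₗ[K] T.H B) T.e) =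
      (φ : T.H T.one →ₗ[K] T.H B) T.e
    rw [evenProj, LinearMap.smul_apply, LinearMap.add_apply, ← h5, LinearMap.id_apply,
      ← two_smul K, smul_smul, inv_mul_cancel₀ (two_ne_zero (α := K)), one_smul]
  have h6 := nc_le (T := T) (A := B) (u := LinearMap.id) S_id
  rw [h4, sub_self, rk_zero] at h6
  exact Nat.le_zero.1 h6

theorem nc_cellular (T : NCTheory.{u, v, w} K) (A B : T.Obj)
    (h : T.rank B = Module.finrank K (T.H B)) :
    ncDist T (T.ten A B) = T.rank B * ncDist T A := by
  refine le_antisymm ?_ (nc_lower T A B)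
  have h1 := nc_upper T A B
  rw [nc_algebraic T B h, mul_zero, mul_zero, mul_zero, add_zero, add_zero] at h1
  rw [h, mul_comm]
  exact h1

theorem nc_pow (T : NCTheory.{u, v, w} K) (A : T.Obj) (n : ℕ) :
    2 * ncDist T (T.pow A n) + (Module.finrank K (T.H A) - 2 * ncDist T A) ^ n ≤
      Module.finrank K (T.H A) ^ n := by
  induction n with
  | zero =>
    rw [_root_.pow_zero, _root_.pow_zero]
    have h := nc_two_le T (T.pow A 0)
    have h1 : Module.finrank K (T.H (T.pow A 0)) = 1 := finrank_one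
    omega
  | succ n ih =>
    have h4 := nc_upper T A (T.pow A n)
    rw [finrank_pow] at h4
    change 2 * ncDist T (T.ten A (T.pow A n)) + _ ≤ _
    obtain ⟨c, hc⟩ := Nat.exists_eq_add_of_le (nc_two_le T A)
    have hc' : Module.finrank K (T.H A) - 2 * ncDist T A = c := by omega
    rw [hc'] at ih ⊢
    generalize ncDist T (T.ten A (T.pow A n)) = D' at h4 ⊢
    generalize ncDist T (T.pow A n) = D at ih h4
    generalize ncDist T A = d at h4 hc
    rw [_root_.pow_succ (Module.finrank K (T.H A))]
    generalize Module.finrank K (T.H A) ^ n = B at ih h4 ⊢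
    rw [hc] at h4 ⊢
    rw [_root_.pow_succ c n]
    generalize c ^ n = C at ih ⊢
    nlinarith [Nat.mul_le_mul_right c ih]

/-- The distance is zero if and only if `C^+` holds. -/
theorem nc_zero {K : Type} [Field K] [CharZero K] (T : NCTheory.{0, v, 0} K) (A : T.Obj) :
    ncDist T A = 0 ↔ RationalIn (T.cor A A) (evenProj (T.par A)) := by
  have hm : ncDist T A = 0 ↔ evenProj (T.par A) ∈ T.S A A := by
    constructor
    · intro h
      obtain ⟨u, hu, h1⟩ := nc_spec T A
      rw [h, rk, Submodule.finrank_eq_zero, LinearMap.range_eq_bot, sub_eq_zero] at h1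
      exact h1 ▸ hu
    · intro h
      have h1 := nc_le h
      rw [sub_self, rk_zero] at h1
      exact Nat.le_zero.1 h1
  rw [hm]
  constructor
  · intro h
    exact Pool.Agent.Y824.ZI.cnc T A (Pool.Agent.Y681.ZI.tri T A) h
  · rintro ⟨n, hn, h⟩
    have h1 : ((n : K)⁻¹ • (n • evenProj (T.par A)) : T.H A →ₗ[K] T.H A) ∈ T.S A A :=
      Submodule.smul_mem _ _ (of_cor h)
    rwa [← Nat.cast_smul_eq_nsmul K n, smul_smul, inv_mul_cancel₀ (Nat.cast_ne_zero.2 hn),
      one_smul] at h1

end Pool.Agent.H858.CG.NC
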