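import Pool.Agent.H858.CG.Dual
import Pool.Graph.R_pool_sql_team_seeded_3997aac3.Q55.Lr.SgnLaw

/-!
# The distance of the even projector from the algebraic operators on products
-/

set_option autoImplicit false
set_option linter.unusedSectionVars false
set_option linter.unusedVariables false

open CategoryTheory AlgebraicGeometry

universe u v

namespace Pool.Agent.H858.CG

open Pool.Agent.H914 Pool.Agent.H914.VarClass Pool.Agent.H914.VarClass.Obj
  Pool.Agent.H914.WeilCohomology Pool.Agent.H447
open Pool.Agent.Y133.Half (algSys xp xp_ext xp_induction PH)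
open Pool.Agent.Q55.Rate (totalBetti)
open Pool.Agent.Q55.Lr (evenDist ev jw ev_op jw_op ev_xp jw_apply edist_le edist_spec
  edist_eq_zero par_eq_evenProj par_xp_even)

variable {k : Type u} [Field k] {𝒱 : VarClass k} {ops : CycleOps 𝒱}
  {W : WeilCohomology.{u, v} ops} {X Y : 𝒱.Obj}

section Lin

variable {K V W : Type*} [Field K] [AddCommGroup V] [Module K V] [AddCommGroup W] [Module K W]

theorem rk_smul {c : K} (hc : c ≠ 0) (f : V →ₗ[K] W) : rk (c • f) = rk f := by
  rw [rk, rk, LinearMap.range_smul f c hc]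

theorem rk_neg (f : V →ₗ[K] W) : rk (-f) = rk f := by
  rw [rk, rk, LinearMap.range_neg]

theorem rk_sub_comm (f g : V →ₗ[K] W) : rk (f - g) = rk (g - f) := by
  rw [← rk_neg, neg_sub]

end Lin

theorem ep_idem : evenProj (W.isInternal X) * evenProj (W.isInternal X) =
    evenProj (W.isInternal X) := by
  apply gr_ext (W.isInternal X)
  intro i x hx
  rw [Module.End.mul_apply, evenProj, scal_apply _ _ hx, map_smul, scal_apply _ _ hx]
  split_ifs
  · rw [one_smul]
  · rw [zero_smul, zero_smul]

theorem ep_comm {a : Module.End W.K (W.H X)} (ha : a ∈ (algSys W).Op X X) :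
    evenProj (W.isInternal X) * a = a * evenProj (W.isInternal X) := by
  have h1 : par (W.isInternal X) * a = a * par (W.isInternal X) :=
    (Pool.Agent.Y133.Half.Sys.Op.ev ha).par_comm
  rw [par_eq_evenProj, sub_mul, mul_sub, one_mul, mul_one, sub_left_inj, smul_mul_assoc,
    mul_smul_comm] at h1
  exact smul_right_injective _ (two_ne_zero (α := W.K)) h1

/-- The system of the algebraic operators. -/
theorem sysEven (W : WeilCohomology.{u, v} ops) (X : 𝒱.Obj) :
    Sys (Λ := Unit) (fun _ _ => (algSys W).Op X X) (fun _ => evenProj (W.isInternal X)) where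
  one _ := Pool.Agent.Y133.Half.Sys.Op.id
  mul ha hb := Pool.Agent.Y133.Half.Sys.Op.comp ha hb
  idem _ := ep_idem
  comm ha := ep_comm ha

theorem dst_even (W : WeilCohomology.{u, v} ops) (X : 𝒱.Obj) :
    dst (Λ := Unit) (fun _ _ => (algSys W).Op X X) (fun _ => evenProj (W.isInternal X)) () =
      evenDist W X := by
  apply le_antisymm
  · obtain ⟨u, hu, h⟩ := edist_spec (W := W) (X := X)
    refine (dst_le (s := ()) hu).trans ?_
    rw [rk_sub_comm]
    exact h.le
  · obtain ⟨u, hu, h⟩ := exists_dst (Λ := Unit) (𝒞 := fun _ _ => (algSys W).Op X X)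
      (π := fun _ => evenProj (W.isInternal X)) ()
    rw [← h, rk_sub_comm]
    exact edist_le hu

theorem ep_xp {w : W.H Y} (hw : w ∈ PH W Y 0) (x : W.H X) :
    evenProj (W.isInternal (X.prod Y)) (xp W x w) = xp W (evenProj (W.isInternal X) x) w := by
  have h1 := par_xp_even hw x
  rw [par_eq_evenProj, par_eq_evenProj, LinearMap.sub_apply, LinearMap.sub_apply,
    Module.End.one_apply, Module.End.one_apply, LinearMap.smul_apply, LinearMap.smul_apply] at h1
  have h2 : xp W ((2 : W.K) • evenProj (W.isInternal X) x - x) w =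
      (2 : W.K) • xp W (evenProj (W.isInternal X) x) w - xp W x w := by
    rw [sub_eq_add_neg, Pool.Agent.Y133.Half.xp_add_left, Pool.Agent.Y133.Half.xp_smul_left,
      ← neg_one_smul W.K x, Pool.Agent.Y133.Half.xp_smul_left, neg_one_smul, ← sub_eq_add_neg]
  rw [h2, sub_left_inj] at h1
  exact smul_right_injective _ (two_ne_zero (α := W.K)) h1

/-- **The lower bound.** -/
theorem even_lower (W : WeilCohomology.{u, v} ops) (X Y : 𝒱.Obj) :
    Pool.Agent.Y133.Half.cycRank ops Y * evenDist W X ≤ evenDist W (X.prod Y) := by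
  obtain ⟨w, v, hwv⟩ := exists_dual_sys (((algSys W).F Y 1 :
    (algSys W).C Y →ₗ[W.K] Module.Dual W.K ((algSys W).C Y)))
  obtain ⟨u, hu, h⟩ := edist_spec (W := W) (X := X.prod Y)
  have hr : rk (((algSys W).F Y 1 : (algSys W).C Y →ₗ[W.K] Module.Dual W.K ((algSys W).C Y))) =
      Pool.Agent.Y133.Half.cycRank ops Y := Pool.Agent.Y133.Half.numDim_eq_cycRank W Y
  have hev : ∀ c : (algSys W).C Y, (c : W.H Y) ∈ PH W Y 0 := fun c => (algSys W).even c.2
  have key := lower' (sysEven W X) (q := fun _ => ()) (Θ := u)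
    (P := evenProj (W.isInternal (X.prod Y)))
    (ι := fun t => jw W X (w t : W.H Y)) (ρ := fun s => ev W X (v s : W.H Y))
    (fun s t => Pool.Agent.Y133.Half.Sys.Op.comp (ev_op (v s).2)
      (Pool.Agent.Y133.Half.Sys.Op.comp hu (jw_op (w t).2))) (fun s t => by
        apply LinearMap.ext
        intro x
        rw [LinearMap.comp_apply, LinearMap.comp_apply, jw_apply (hev _), ep_xp (hev _),
          ev_xp (hev _) (hev _)]
        have h1 : W.tr Y ((w t : W.H Y) * (v s : W.H Y)) = if s = t then 1 else 0 := hwv s t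
        rw [h1]
        split_ifs
        · rw [one_smul]
        · rw [zero_smul]
          rfl)
  rw [Finset.sum_const, Finset.card_univ, Fintype.card_fin, smul_eq_mul, dst_even, hr,
    rk_sub_comm] at key
  rw [← h]
  exact key

theorem rk_one_sub {g : Module.End W.K (W.H X)} (hg : g * g = g) :
    rk (1 - g) + rk g = Module.finrank W.K (W.H X) := by
  have h1 : (1 - g) * (1 - g) = 1 - g := by
    rw [sub_mul, mul_sub, mul_sub, hg, one_mul, mul_one, sub_self, sub_zero, one_mul]
  have h2 := Pool.Agent.Y133.Half.trace_idem hg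
  have h3 := Pool.Agent.Y133.Half.trace_idem h1
  rw [map_sub, LinearMap.trace_one, h2] at h3
  have h4 : ((Module.finrank W.K (W.H X) : ℕ) : W.K) = ((rk (1 - g) + rk g : ℕ) : W.K) := by
    rw [Nat.cast_add]
    exact sub_eq_iff_eq_add.1 h3
  exact (Nat.cast_injective h4).symm

theorem parity_id {R : Type*} [Ring R] {π ε : R} (h1 : π * π = π) (h2 : ε * ε = ε)
    (hc : π * ε = ε * π) : (2 * π - 1) * (1 - 2 * ((ε - π) * (ε - π))) = 2 * ε - 1 := by
  have e : (ε - π) * (ε - π) = ε + π - 2 * (π * ε) := by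
    calc (ε - π) * (ε - π) = ε * ε + π * π - ε * π - π * ε := by noncomm_ring
      _ = ε + π - π * ε - π * ε := by rw [h1, h2, hc]
      _ = _ := by noncomm_ring
  rw [e]
  calc (2 * π - 1) * (1 - 2 * (ε + π - 2 * (π * ε))) =
        (2 * ε - 1) + (π * π - π) * (8 * ε - 4) := by noncomm_ring
    _ = _ := by rw [h1, sub_self, zero_mul, add_zero]

theorem two_smul_eq (a : Module.End W.K (W.H X)) : (2 : W.K) • a = 2 * a := by
  rw [two_smul, two_mul]

theorem rk_extOp_le {g : Module.End W.K (W.H X)} {h : Module.End W.K (W.H Y)} (hg : g * g = g)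
    (hh : h * h = h) : rk (extOp W g h) = rk g * rk h :=
  Pool.Agent.Y133.Half.finrank_extOp hg hh

/-- **The upper bound.** -/
theorem even_upper (W : WeilCohomology.{u, v} ops) (X Y : 𝒱.Obj) :
    evenDist W (X.prod Y) + 2 * (evenDist W X * evenDist W Y) ≤
      evenDist W X * totalBetti W Y + totalBetti W X * evenDist W Y := by
  obtain ⟨ε, hε, e1, e2, e3, e4⟩ := exists_best (sysEven W X) ()
  obtain ⟨ε', hε', e1', e2', e3', e4'⟩ := exists_best (sysEven W Y) ()
  rw [dst_even] at e2 e4 e2' e4'
  set π := evenProj (W.isInternal X) with hπ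
  set π' := evenProj (W.isInternal Y) with hπ'
  set G := (ε - π) * (ε - π) with hG
  set G' := (ε' - π') * (ε' - π') with hG'
  have hc : π * ε = ε * π := ep_comm hε
  have hc' : π' * ε' = ε' * π' := ep_comm hε'
  have hA : par (W.isInternal X) * (1 - (2 : W.K) • G) = (2 : W.K) • ε - 1 := by
    rw [par_eq_evenProj, two_smul_eq, two_smul_eq, two_smul_eq]
    exact parity_id ep_idem e1 hc
  have hA' : par (W.isInternal Y) * (1 - (2 : W.K) • G') = (2 : W.K) • ε' - 1 := by
    rw [par_eq_evenProj, two_smul_eq, two_smul_eq, two_smul_eq]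
    exact parity_id ep_idem e1' hc'
  have hu : extOp W ((2 : W.K) • ε - 1) ((2 : W.K) • ε' - 1) ∈
      (algSys W).Op (X.prod Y) (X.prod Y) :=
    Pool.Agent.Y133.Half.Sys.Op.ext
      (Submodule.sub_mem _ (Submodule.smul_mem _ _ hε) Pool.Agent.Y133.Half.Sys.Op.id)
      (Submodule.sub_mem _ (Submodule.smul_mem _ _ hε') Pool.Agent.Y133.Half.Sys.Op.id)
  -- the difference of the parity operator and the external product of the involutions
  have h1 : par (W.isInternal (X.prod Y)) - extOp W ((2 : W.K) • ε - 1) ((2 : W.K) • ε' - 1) =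
      par (W.isInternal (X.prod Y)) *
        ((2 : W.K) • (extOp W G (1 - G') + extOp W (1 - G) G')) := by
    rw [← hA, ← hA', ← extOp_mul, ← Pool.Agent.Q55.Hs.par_prod']
    have h2 : (1 : Module.End W.K (W.H (X.prod Y))) - extOp W (1 - (2 : W.K) • G)
        (1 - (2 : W.K) • G') = (2 : W.K) • (extOp W G (1 - G') + extOp W (1 - G) G') := by
      have l1 : ∀ a b : Module.End W.K (W.H X), ∀ c : Module.End W.K (W.H Y),
          extOp W (a - b) c = extOp W a c - extOp W b c := by
        intro a b c
        rw [eq_sub_iff_add_eq, ← extOp_add_left, sub_add_cancel]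
      have l2 : ∀ a : Module.End W.K (W.H X), ∀ b c : Module.End W.K (W.H Y),
          extOp W a (b - c) = extOp W a b - extOp W a c := by
        intro a b c
        rw [eq_sub_iff_add_eq, ← extOp_add_right, sub_add_cancel]
      rw [l1, l2, l2, l2, l1, extOp_one, extOp_smul_left, extOp_smul_left, extOp_smul_right,
        extOp_smul_right]
      simp only [two_smul]
      abel
    rw [← h2, mul_sub, mul_one]
  have h3 : evenProj (W.isInternal (X.prod Y)) - (2 : W.K)⁻¹ •
      (extOp W ((2 : W.K) • ε - 1) ((2 : W.K) • ε' - 1) + 1) =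
        (2 : W.K)⁻¹ • (par (W.isInternal (X.prod Y)) -
          extOp W ((2 : W.K) • ε - 1) ((2 : W.K) • ε' - 1)) := by
    rw [par_eq_evenProj, smul_add, smul_sub, smul_sub, smul_smul,
      inv_mul_cancel₀ (two_ne_zero (α := W.K)), one_smul]
    abel
  have h4 := edist_le (W := W) (X := X.prod Y) (u := (2 : W.K)⁻¹ •
      (extOp W ((2 : W.K) • ε - 1) ((2 : W.K) • ε' - 1) + 1))
    (Submodule.smul_mem _ _ (Submodule.add_mem _ hu Pool.Agent.Y133.Half.Sys.Op.id))
  rw [h3, h1] at h4
  have h5 : evenDist W (X.prod Y) ≤ rk G * rk (1 - G') + rk (1 - G) * rk G' := by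
    refine h4.trans ?_
    change rk _ ≤ _
    rw [rk_smul (inv_ne_zero (two_ne_zero (α := W.K)))]
    refine (rk_comp_le_left (par (W.isInternal (X.prod Y))) _).trans ?_
    rw [rk_smul (two_ne_zero (α := W.K))]
    refine (rk_add_le _ _).trans ?_
    have i1 : (1 - G) * (1 - G) = 1 - G := by
      rw [sub_mul, mul_sub, mul_sub, e3, one_mul, mul_one, sub_self, sub_zero, one_mul]
    have i2 : (1 - G') * (1 - G') = 1 - G' := by
      rw [sub_mul, mul_sub, mul_sub, e3', one_mul, mul_one, sub_self, sub_zero, one_mul]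
    rw [rk_extOp_le e3 i2, rk_extOp_le i1 e3']
  have h6 := rk_one_sub e3
  have h7 := rk_one_sub e3'
  rw [e4] at h6 h5
  rw [e4'] at h7 h5
  have h8 : totalBetti W X = rk (1 - G) + evenDist W X := h6.symm
  have h9 : totalBetti W Y = rk (1 - G') + evenDist W Y := h7.symm
  rw [h8, h9]
  nlinarith [h5]

theorem even_zero (h : Pool.Agent.Y133.Half.cycRank ops Y = totalBetti W Y) :
    evenDist W Y = 0 := by
  have h1 : rk ((algSys W).F Y 1) = Module.finrank W.K (W.H Y) :=
    (Pool.Agent.Y133.Half.numDim_eq_cycRank W Y).trans h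
  have h2 : rk ((algSys W).F Y 1) ≤ Module.finrank W.K ((algSys W).C Y) := by
    rw [rk]
    have h3 := LinearMap.finrank_range_add_finrank_ker ((algSys W).F Y 1)
    omega
  have h3 : (algSys W).C Y = ⊤ := by
    apply Submodule.eq_top_of_finrank_eq
    have h4 := Submodule.finrank_le ((algSys W).C Y)
    omega
  have h5 : evenProj (W.isInternal Y) = 1 := by
    apply LinearMap.ext
    intro x
    have h6 : x ∈ (algSys W).C Y := by rw [h3]; exact Submodule.mem_top
    exact Pool.Agent.Q55.Lr.evenProj_apply_even rfl ((algSys W).even h6)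
  have h7 := edist_le (W := W) (X := Y) (u := 1) Pool.Agent.Y133.Half.Sys.Op.id
  rw [h5, sub_self, LinearMap.range_zero, finrank_bot] at h7
  exact Nat.le_zero.1 h7

theorem even_cellular (W : WeilCohomology.{u, v} ops) (X Y : 𝒱.Obj)
    (h : Pool.Agent.Y133.Half.cycRank ops Y = totalBetti W Y) :
    evenDist W (X.prod Y) = totalBetti W Y * evenDist W X := by
  have h1 := even_lower W X Y
  have h2 := even_upper W X Y
  rw [even_zero h, mul_zero, mul_zero, mul_zero, add_zero, add_zero, mul_comm] at h2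
  rw [h] at h1
  exact le_antisymm h2 h1

theorem two_dist_le (W : WeilCohomology.{u, v} ops) (X : 𝒱.Obj) :
    2 * evenDist W X ≤ totalBetti W X := by
  have h1 := edist_le (W := W) (X := X) (u := 0) (Submodule.zero_mem _)
  have h2 := edist_le (W := W) (X := X) (u := 1) Pool.Agent.Y133.Half.Sys.Op.id
  rw [sub_zero] at h1
  have h3 := rk_one_sub (ep_idem (W := W) (X := X))
  rw [rk_sub_comm] at h3
  change _ = totalBetti W X at h3
  rw [rk, rk] at h3
  omega

theorem even_pow (W : WeilCohomology.{u, v} ops) (X : 𝒱.Obj) : ∀ n : ℕ,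
    Pool.Agent.Y133.Half.cycRank ops X ^ n * evenDist W X ≤
      evenDist W (Pool.Agent.Y133.Half.pw X n) ∧
    2 * evenDist W (Pool.Agent.Y133.Half.pw X n) +
      (totalBetti W X - 2 * evenDist W X) ^ (n + 1) ≤ totalBetti W X ^ (n + 1)
  | 0 => by
    refine ⟨?_, ?_⟩
    · rw [pow_zero, one_mul]
      exact le_rfl
    · rw [zero_add, pow_one, pow_one]
      have h := two_dist_le W X
      change 2 * evenDist W X + _ ≤ _
      omega
  | n + 1 => by
    obtain ⟨h1, h2⟩ := even_pow W X n
    have h3 := even_lower W (Pool.Agent.Y133.Half.pw X n) X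
    have h4 := even_upper W (Pool.Agent.Y133.Half.pw X n) X
    rw [Pool.Agent.Q55.Lr.betti_pw] at h4
    refine ⟨?_, ?_⟩
    · refine le_trans ?_ h3
      rw [pow_succ, mul_comm (Pool.Agent.Y133.Half.cycRank ops X ^ n), mul_assoc]
      exact Nat.mul_le_mul_left _ h1
    · change 2 * evenDist W ((Pool.Agent.Y133.Half.pw X n).prod X) + _ ≤ _
      obtain ⟨c, hc⟩ := Nat.exists_eq_add_of_le (two_dist_le W X)
      have hc' : totalBetti W X - 2 * evenDist W X = c := by omega
      rw [hc'] at h2 ⊢
      generalize evenDist W ((Pool.Agent.Y133.Half.pw X n).prod X) = D' at h4 ⊢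
      generalize evenDist W (Pool.Agent.Y133.Half.pw X n) = D at h2 h4
      generalize evenDist W X = d at h4 hc
      rw [pow_succ (totalBetti W X)]
      generalize totalBetti W X ^ (n + 1) = B at h2 h4 ⊢
      rw [hc] at h4 ⊢
      rw [pow_succ c (n + 1)]
      generalize c ^ (n + 1) = C at h2 ⊢
      nlinarith [Nat.mul_le_mul_right c h2]

end Pool.Agent.H858.CG
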